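import Pool.Agent.Helper69.SwR.Unl

/-!
# Almost all switching classes are reconstructible, with reconstruction number three

By helper69 (formerly the hand-in AlmostAll of MP_87adae_co). For all but an exponentially small proportion of the switching
equivalence classes (isomorphism types of two-graphs) on `n` vertices: the class is reconstructible
from its deck, it is already determined by ANY THREE of its cards, and it is not determined by any
two of its cards. (The lemma `labelled_aux` is the same bound for graphs on `n` labelled vertices.)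
-/

open Finset Filter Topology

namespace RCD.AlmostAll

open SwR

/-- The class of `X` is reconstructible, any three cards determine it, and no two cards do. -/
def Typical {V : Type*} (X : SimpleGraph V) : Prop :=
  Reconstructible X ∧ ThreeCards X ∧ NotTwoCards X

/-- A switching class all of whose members are typical. -/
def TypicalClass {n : ℕ} (c : Cls n) : Prop :=
  ∀ X : SimpleGraph (Fin n), Quotient.mk (swSetoid n) X = c → Typical X

theorem typical_of_rigid {n : ℕ} (hn : 4 ≤ n) {X : SimpleGraph (Fin n)} (hX : Rigid X) :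
    Typical X := by
  have h1 : ThreeCards X := hX.threeCards (by simpa using hn)
  exact ⟨reconstructible_of_threeCards (by simp; omega) h1, h1,
    hX.notTwoCards (by simp; omega)⟩

open Classical in
theorem labelled_aux (n : ℕ) (hn : 1 ≤ n) :
    (((univ : Finset (SimpleGraph (Fin n))).filter fun X => ¬ Typical X).card : ℝ) ≤
      2 * ((n : ℝ) ^ 12 / 2 ^ ((n - 11) / 3)) * Fintype.card (SimpleGraph (Fin n)) := by
  by_cases h : 11 ≤ n ∧ 2 * n ^ 12 ≤ 2 ^ ((n - 11) / 3)
  · have h1 := union_bound n h.1 h.2
    have h2 : ((univ : Finset (SimpleGraph (Fin n))).filter fun X => ¬ Typical X).card ≤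
        bsum n := by
      refine le_trans (card_le_card ?_) (card_nonrigid_le n)
      intro X hX
      rw [mem_filter] at hX ⊢
      exact ⟨mem_univ _, fun hr => hX.2 (typical_of_rigid (by omega) hr)⟩
    rw [card_graphs]
    push_cast
    refine le_trans ?_ h1
    exact_mod_cast h2
  · have h3 : (1 : ℝ) ≤ 2 * ((n : ℝ) ^ 12 / 2 ^ ((n - 11) / 3)) := by
      have h4 : (2 : ℝ) ^ ((n - 11) / 3) ≤ 2 * (n : ℝ) ^ 12 := by
        by_cases h11 : 11 ≤ n
        · have : 2 ^ ((n - 11) / 3) ≤ 2 * n ^ 12 := by
            by_contra hc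
            exact h ⟨h11, by omega⟩
          exact_mod_cast this
        · have : (n - 11) / 3 = 0 := by omega
          rw [this, pow_zero]
          have : (1 : ℝ) ≤ (n : ℝ) ^ 12 := one_le_pow₀ (by exact_mod_cast hn)
          linarith
      rw [← mul_div_assoc, le_div_iff₀ (by positivity), one_mul]
      exact h4
    have h5 : (((univ : Finset (SimpleGraph (Fin n))).filter fun X => ¬ Typical X).card : ℝ) ≤
        Fintype.card (SimpleGraph (Fin n)) := by
      rw [← card_univ]
      exact_mod_cast card_le_card (filter_subset _ _)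
    nlinarith [Nat.cast_nonneg (α := ℝ) (Fintype.card (SimpleGraph (Fin n)))]

open Classical in
theorem unlabelled_aux (n : ℕ) (hn : 1 ≤ n) :
    (((univ : Finset (Cls n)).filter fun c => ¬ TypicalClass c).card : ℝ) ≤
      4 * ((n : ℝ) ^ 12 / 2 ^ ((n - 11) / 3)) * Fintype.card (Cls n) := by
  by_cases h : 11 ≤ n ∧ 2 * n ^ 12 ≤ 2 ^ ((n - 11) / 3)
  · have h1 := union_bound n h.1 h.2
    have h2 : ((univ : Finset (Cls n)).filter fun c => ¬ TypicalClass c).card ≤
        (nrCls n).card := by
      apply card_le_card
      intro c hc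
      rw [mem_filter] at hc
      have h3 := hc.2
      unfold TypicalClass at h3
      push Not at h3
      obtain ⟨X, hX, hX2⟩ := h3
      unfold nrCls
      rw [mem_image]
      refine ⟨X, ?_, hX⟩
      rw [mem_filter]
      exact ⟨mem_univ _, fun hr => hX2 (typical_of_rigid (by omega) hr)⟩
    have h3 := nrCls_bound n
    rw [card_graphs] at h3
    have h4 : ((nrCls n).card : ℝ) * 2 ^ (n.choose 2) ≤
        2 * (bsum n : ℝ) * Fintype.card (Cls n) := by exact_mod_cast h3
    have h5 : (bsum n : ℝ) ≤
        2 * ((n : ℝ) ^ 12 / 2 ^ ((n - 11) / 3)) * 2 ^ (n.choose 2) := by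
      unfold bsum
      exact h1
    have h6 : ((nrCls n).card : ℝ) * 2 ^ (n.choose 2) ≤
        (4 * ((n : ℝ) ^ 12 / 2 ^ ((n - 11) / 3)) * Fintype.card (Cls n)) *
          2 ^ (n.choose 2) := by
      refine h4.trans ?_
      have h7 : (0 : ℝ) ≤ Fintype.card (Cls n) := Nat.cast_nonneg _
      nlinarith [mul_le_mul_of_nonneg_right h5 h7]
    have h8 : ((nrCls n).card : ℝ) ≤
        4 * ((n : ℝ) ^ 12 / 2 ^ ((n - 11) / 3)) * Fintype.card (Cls n) :=
      le_of_mul_le_mul_right h6 (by positivity)
    refine le_trans ?_ h8
    exact_mod_cast h2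
  · have h3 : (1 : ℝ) ≤ 2 * ((n : ℝ) ^ 12 / 2 ^ ((n - 11) / 3)) := by
      have h4 : (2 : ℝ) ^ ((n - 11) / 3) ≤ 2 * (n : ℝ) ^ 12 := by
        by_cases h11 : 11 ≤ n
        · have : 2 ^ ((n - 11) / 3) ≤ 2 * n ^ 12 := by
            by_contra hc
            exact h ⟨h11, by omega⟩
          exact_mod_cast this
        · have : (n - 11) / 3 = 0 := by omega
          rw [this, pow_zero]
          have : (1 : ℝ) ≤ (n : ℝ) ^ 12 := one_le_pow₀ (by exact_mod_cast hn)
          linarith
      rw [← mul_div_assoc, le_div_iff₀ (by positivity), one_mul]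
      exact h4
    have h5 : (((univ : Finset (Cls n)).filter fun c => ¬ TypicalClass c).card : ℝ) ≤
        Fintype.card (Cls n) := by
      rw [← card_univ]
      exact_mod_cast card_le_card (filter_subset _ _)
    nlinarith [Nat.cast_nonneg (α := ℝ) (Fintype.card (Cls n))]

end RCD.AlmostAll
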