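import Mathlib

/-! Bondy's theorem: if there are at least as many coordinates as rows, then some coordinate is
redundant for separating the rows. -/

open Finset

namespace RCD

theorem exists_redundant {ι κ γ : Type*} (A : Set ι) (B : Finset κ) (ρ : κ → ι → γ)
    (U : Finset ι) (hUA : ∀ x ∈ U, x ∈ A) (hU : B.card ≤ U.card) (hne : U.Nonempty) :
    ∃ v ∈ U, ∀ z ∈ B, ∀ z' ∈ B, (∀ x ∈ A, x ≠ v → ρ z x = ρ z' x) → ρ z v = ρ z' v := by
  classical
  by_contra hcon
  push Not at hcon
  let res : Finset ι → κ → ι → Option γ := fun S z x => if x ∈ S then some (ρ z x) else none
  have key : ∀ S : Finset ι, S ⊆ U → S.card + 1 ≤ (B.image (res S)).card := by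
    intro S
    induction S using Finset.induction_on with
    | empty =>
      intro _
      obtain ⟨v, hv⟩ := hne
      obtain ⟨z, hz, _⟩ := hcon v hv
      have : (B.image (res ∅)).Nonempty := ⟨_, mem_image_of_mem _ hz⟩
      have := card_pos.2 this
      simpa using this
    | insert v S hv ih =>
      intro hS
      have hSU : S ⊆ U := fun x hx => hS (mem_insert_of_mem hx)
      have h1 := ih hSU
      obtain ⟨z, hz, z', hz', hag, hne'⟩ := hcon v (hS (mem_insert_self v S))
      let restr : (ι → Option γ) → ι → Option γ := fun h x => if x ∈ S then h x else none
      have hcomp : ∀ z, restr (res (insert v S) z) = res S z := by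
        intro z
        funext x
        by_cases hx : x ∈ S
        · simp [restr, res, hx]
        · simp [restr, res, hx]
      have himg : (B.image (res (insert v S))).image restr = B.image (res S) := by
        rw [image_image]
        apply image_congr
        intro z _
        exact hcomp z
      have hle : (B.image (res S)).card ≤ (B.image (res (insert v S))).card := by
        rw [← himg]; exact card_image_le
      have hneq : (B.image (res S)).card ≠ (B.image (res (insert v S))).card := by
        intro heq
        rw [← himg] at heq
        have hinj := card_image_iff.1 heq
        have h2 : res (insert v S) z = res (insert v S) z' := by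
          apply hinj
          · exact mem_coe.2 (mem_image_of_mem _ hz)
          · exact mem_coe.2 (mem_image_of_mem _ hz')
          · change restr (res (insert v S) z) = restr (res (insert v S) z')
            rw [hcomp, hcomp]
            funext x
            by_cases hx : x ∈ S
            · have hxv : x ≠ v := fun h => hv (h ▸ hx)
              simp [res, hx, hag x (hUA x (hSU hx)) hxv]
            · simp [res, hx]
        have h3 := congrFun h2 v
        simp only [res, mem_insert_self, if_true, Option.some.injEq] at h3
        exact hne' h3
      rw [card_insert_of_notMem hv]
      omega
  have h1 := key U (Subset.refl U)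
  have h2 : (B.image (res U)).card ≤ B.card := card_image_le
  omega

end RCD
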