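import Pool.Agent.Helper69.SwR.Defs

/-! # Classes determined by any `r` cards: the definitions of the statement (MP_87adae_co)

`SwEq X Y`: `X` and `Y` are switching equivalent (`Y ≅ X^τ` for some `τ`); `card X v` is `X - v`;
`T X x y z` is the two-graph of `X` (number of edges modulo 2 on the triple); `Pres X u v f`:
`f` preserves it outside of `{u, v}`; `Inj2 u v f`: `f` is injective outside of `{u, v}`
(all in `Pool.Agent.Helper69.SwR.Defs`). -/

namespace RCD

open SwR

/-- The switching class of `X` is determined by any `r` of its cards. -/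
def RCards {V : Type*} (r : ℕ) (X : SimpleGraph V) : Prop :=
  ∀ (Y : SimpleGraph V) (v w : Fin r → V), Function.Injective v → Function.Injective w →
    (∀ i, SwEq (card X (v i)) (card Y (w i))) → SwEq X Y

/-- `f` (on the complement of `{u, v}`) is an isomorphism between two subclasses of the class
of `X` with at least `n - 2` vertices. -/
def SubIso {V : Type*} (X : SimpleGraph V) (u v : V) (f : V → V) : Prop :=
  Inj2 u v f ∧ Pres X u v f

/-- The vertices moved by isomorphisms between subclasses with at least `n - 2` vertices
(sources and targets). -/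
def moved {V : Type*} (X : SimpleGraph V) : Set V :=
  {z | ∃ (u v : V) (f : V → V), SubIso X u v f ∧
    ∃ x, (x ≠ u ∧ x ≠ v) ∧ f x ≠ x ∧ (z = x ∨ z = f x)}

/-- The type of the switching classes on `n` vertices: the classes of switching equivalence
(an equivalence relation) on the graphs with vertex set `Fin n`. -/
abbrev Classes (n : ℕ) : Type := Quot fun X Y : SimpleGraph (Fin n) => SwEq X Y

/-- The decks of `X` and `Y` are switching equivalent. -/
def SameDeck {V : Type*} (X Y : SimpleGraph V) : Prop :=
  ∃ π : V ≃ V, ∀ v, SwEq (card X v) (card Y (π v))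

/-- A class such that all its members `X` satisfy `2 |moved X| + 2 ≤ r`. -/
def FewMoved {n : ℕ} (r : ℕ) (c : Classes n) : Prop :=
  ∀ X : SimpleGraph (Fin n), Quot.mk _ X = c → 2 * (moved X).ncard + 2 ≤ r

/-- A class which is determined by any `r` of its cards. -/
def AnyCards {n : ℕ} (r : ℕ) (c : Classes n) : Prop :=
  ∀ X : SimpleGraph (Fin n), Quot.mk _ X = c → RCards r X

/-- A class such that no two cards of its members determine it. -/
def NoTwoCards {n : ℕ} (c : Classes n) : Prop :=
  ∀ X : SimpleGraph (Fin n), Quot.mk _ X = c → ∀ u v : Fin n, u ≠ v →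
    ∃ Y : SimpleGraph (Fin n), SwEq (card X u) (card Y u) ∧ SwEq (card X v) (card Y v) ∧
      ¬ SwEq X Y

/-- A class which is reconstructible: determined by its deck. -/
def Recon {n : ℕ} (c : Classes n) : Prop :=
  ∀ X Y : SimpleGraph (Fin n), Quot.mk _ X = c → SameDeck Y X → SwEq X Y

end RCD
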