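import Pool.Agent.Helper69.SwR.Unl
import Pool.Agent.RCD.Stmt

/-! # Classes determined by any `r` cards: definitions (MP_87adae_co)

`T X x y z` is the two-graph of `X` (number of edges modulo 2 on the triple), see
`Pool.Agent.Helper69.SwR.Defs`. -/

open Finset

namespace RCD

open SwR

/-- `z` and `z'` are twins outside of a set of at most `e` vertices containing both. -/
def Near {V : Type*} (X : SimpleGraph V) (e : ℕ) (z z' : V) : Prop :=
  ∃ E : Finset V, E.card ≤ e ∧ z ∈ E ∧ z' ∈ E ∧
    ∀ x, x ∉ E → ∀ y, y ∉ E → T X z x y = T X z' x y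

open Classical in
/-- the points of the domain moved by `t = (u, v, f)` -/
noncomputable def mv {n : ℕ} (t : Fin n × Fin n × (Fin n → Fin n)) : Finset (Fin n) :=
  univ.filter fun x => (x ≠ t.1 ∧ x ≠ t.2.1) ∧ t.2.2 x ≠ x

end RCD
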