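import Pool.Agent.Helper69.SwR.Reg
import Pool.Agent.RCD.Defs
import Pool.Agent.RCD.Bondy

/-! If `2 |B| + 2 ≤ r` for a set `B` containing all moved vertices, then any `r` cards determine
the class. -/

open Finset

namespace RCD

open SwR

variable {V : Type*}

/-- near-automorphisms fix the points outside of `B` -/
theorem fix_outside {X : SimpleGraph V} {B : Set V} (hB : ∀ z ∈ moved X, z ∈ B) {v w : V}
    {π : V ≃ V} (hvw : v ≠ w) (hv : v ∉ B) (hw : w ∉ B)
    (hπ : ∀ x y z, (x ≠ v ∧ π x ≠ w) → (y ≠ v ∧ π y ≠ w) → (z ≠ v ∧ π z ≠ w) →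
      T X x y z = T X (π x) (π y) (π z)) : ∀ x, x ∉ B → π x = x := by
  have hw' : ∀ x, x ≠ π.symm w → π x ≠ w := by
    intro x hx h
    exact hx (by rw [← h, π.symm_apply_apply])
  have hsub : SubIso X v (π.symm w) π := by
    refine ⟨fun x y _ _ h => π.injective h, ?_⟩
    intro x y z hx hy hz
    exact hπ x y z ⟨hx.1, hw' x hx.2⟩ ⟨hy.1, hw' y hy.2⟩ ⟨hz.1, hw' z hz.2⟩
  have hmem : ∀ x, x ≠ v → π x ≠ w → π x ≠ x → x ∈ B ∧ π x ∈ B := by
    intro x h1 h2 h3
    have h2' : x ≠ π.symm w := by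
      rintro rfl
      exact h2 (π.apply_symm_apply w)
    exact ⟨hB _ ⟨v, π.symm w, π, hsub, x, ⟨h1, h2'⟩, h3, Or.inl rfl⟩,
      hB _ ⟨v, π.symm w, π, hsub, x, ⟨h1, h2'⟩, h3, Or.inr rfl⟩⟩
  have hv1 : π v = v := by
    by_contra h
    have h1 : π.symm v ≠ v := by
      intro h2
      apply h
      conv_lhs => rw [← h2]
      exact π.apply_symm_apply v
    have h2 := hmem (π.symm v) h1 (by rw [π.apply_symm_apply]; exact hvw)
      (by rw [π.apply_symm_apply]; exact h1.symm)
    rw [π.apply_symm_apply] at h2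
    exact hv h2.2
  have hw1 : π w = w := by
    by_contra h
    exact hw (hmem w (Ne.symm hvw) h h).1
  intro x hx
  by_contra h
  have h1 : x ≠ v := by
    rintro rfl
    exact h hv1
  have h2 : π x ≠ w := by
    intro h3
    apply h
    have : x = w := π.injective (h3.trans hw1.symm)
    rw [this, hw1]
  exact hx (hmem x h1 h2 h).1

/-- the combinatorial core -/
theorem core {t t' : V → V → V → ZMod 2} (ht : IsTG t) (ht' : IsTG t') (B : Set V)
    {v0 v a g : V} (hv0 : v0 ∉ B) (hv : v ∉ B) (ha : a ∉ B) (hg : g ∉ B)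
    (h0v : v0 ≠ v) (ha0 : a ≠ v0) (hav : a ≠ v) (hg0 : g ≠ v0) (hgv : g ≠ v) (hga : g ≠ a)
    (α β : V ≃ V) (hα : ∀ x, x ∉ B → α x = x) (hβ : ∀ x, x ∉ B → β x = x)
    (h1 : ∀ x y z, x ≠ v0 → y ≠ v0 → z ≠ v0 → t' x y z = t x y z)
    (h2 : ∀ x y z, x ≠ v → y ≠ v → z ≠ v → t' (α x) (α y) (α z) = t x y z)
    (h3 : ∀ x y z, x ≠ a → y ≠ a → z ≠ a → t' (β x) (β y) (β z) = t x y z)
    (hred : ∀ z ∈ B, ∀ z' ∈ B, (∀ x, x ∉ B → x ≠ a → x ≠ v → x ≠ v0 → t z a x = t z' a x) →
      t z a v = t z' a v) :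
    ∀ x y z, t' (α x) (α y) (α z) = t x y z := by
  have hαv0 : α v0 = v0 := hα v0 hv0
  have hαv : α v = v := hα v hv
  have hαa : α a = a := hα a ha
  have hαg : α g = g := hα g hg
  have hne0 : ∀ x, x ≠ v0 → α x ≠ v0 := fun x hx h => hx (α.injective (h.trans hαv0.symm))
  have s1 : ∀ x y z, x ≠ v → x ≠ v0 → y ≠ v → y ≠ v0 → z ≠ v → z ≠ v0 →
      t (α x) (α y) (α z) = t x y z := by
    intro x y z a1 a2 a3 a4 a5 a6
    rw [← h1 _ _ _ (hne0 x a2) (hne0 y a4) (hne0 z a6), h2 x y z a1 a3 a5]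
  have s2 : ∀ z, t (α z) a v = t z a v := by
    intro z
    by_cases hz : z ∈ B
    · have hz' : α z ∈ B := by
        by_contra h
        have h4 := hα _ h
        have h5 := α.injective h4
        rw [h5] at h
        exact h hz
      symm
      apply hred z hz (α z) hz'
      intro x hx hxa hxv hx0
      have hzv : z ≠ v := fun h => hv (h ▸ hz)
      have hz0 : z ≠ v0 := fun h => hv0 (h ▸ hz)
      have h4 := s1 z a x hzv hz0 hav ha0 hxv hx0
      rw [hαa, hα x hx] at h4
      exact h4.symm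
    · rw [hα z hz]
  have s3 : ∀ x y, x ≠ v0 → y ≠ v0 → t (α x) (α y) a = t x y a := by
    intro x y hx hy
    by_cases hxv : x = v
    · subst hxv
      rw [hαv]
      have h4 := s2 y
      rw [ht.swap12 x (α y) a, ht.swap23 (α y) x a, ht.swap12 x y a, ht.swap23 y x a]
      exact h4
    · by_cases hyv : y = v
      · subst hyv
        rw [hαv]
        have h4 := s2 x
        rw [ht.swap23 (α x) y a, ht.swap23 x y a]
        exact h4
      · have h4 := s1 x y a hxv hx hyv hy hav ha0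
        rw [hαa] at h4
        exact h4
  have s4 : ∀ x y z, x ≠ v0 → y ≠ v0 → z ≠ v0 → t (α x) (α y) (α z) = t x y z := by
    intro x y z hx hy hz
    rw [ht.coc (α x) (α y) (α z) a, ht.coc x y z a, s3 x y hx hy, s3 y z hy hz, s3 x z hx hz]
  have s5 : ∀ x y z, x ≠ v0 → y ≠ v0 → z ≠ v0 → t' (α x) (α y) (α z) = t x y z := by
    intro x y z hx hy hz
    rw [h1 _ _ _ (hne0 x hx) (hne0 y hy) (hne0 z hz), s4 x y z hx hy hz]
  have s6 : t' v0 v g = t v0 v g := by
    have h4 := h3 v0 v g ha0.symm hav.symm hga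
    rw [hβ v0 hv0, hβ v hv, hβ g hg] at h4
    exact h4
  have s7 : ∀ x y, t' (α x) (α y) (α g) = t x y g := by
    intro x y
    by_cases hx : x = v0
    · subst hx
      by_cases hy : y = v
      · subst hy
        rw [hαv0, hαv, hαg]
        exact s6
      · exact h2 x y g h0v hy hgv
    · by_cases hy : y = v0
      · subst hy
        by_cases hx' : x = v
        · subst hx'
          rw [hαv0, hαv, hαg, ht'.swap12, ht.swap12 x]
          exact s6
        · exact h2 x y g hx' h0v hgv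
      · exact s5 x y g hx hy hg0
  intro x y z
  rw [ht'.coc (α x) (α y) (α z) (α g), ht.coc x y z g, s7, s7, s7]

/-- **Theorem 1.** If the moved vertices lie in `B` and `2 |B| + 2 ≤ r`, `3 ≤ r`, then any `r`
cards determine the class. -/
theorem rcards_of_moved [Fintype V] {X : SimpleGraph V} {r : ℕ} (hV : 5 ≤ Fintype.card V)
    (hr : 3 ≤ r) (B : Finset V) (hB : ∀ z ∈ moved X, z ∈ B) (hBr : 2 * B.card + 2 ≤ r) :
    RCards r X := by
  classical
  intro Y v w hv hw hc
  choose φ hφv hφ using fun i => exists_equiv_of_card (hc i)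
  have hrn : r ≤ Fintype.card V := by
    have := Fintype.card_le_of_injective v hv
    rwa [Fintype.card_fin] at this
  set I : Finset (Fin r) := univ.filter (fun i => v i ∉ B) with hI
  set G : Finset V := I.image v with hG
  have hGc : G.card + B.card ≥ r := by
    have h1 : G.card = I.card := card_image_of_injective _ hv
    have h2 : (univ.filter (fun i => ¬ (v i ∉ B))).card ≤ B.card := by
      apply card_le_card_of_injOn v
      · intro i hi
        rw [mem_coe, mem_filter] at hi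
        exact mem_coe.2 (not_not.1 hi.2)
      · exact hv.injOn
    have h3 := card_filter_add_card_filter_not (s := (univ : Finset (Fin r))) (fun i => v i ∉ B)
    rw [card_univ, Fintype.card_fin] at h3
    have h4 : I.card = (univ.filter (fun i => v i ∉ B)).card := by rw [hI]
    omega
  have hGmem : ∀ x ∈ G, x ∉ B ∧ ∃ i, v i = x := by
    intro x hx
    rw [hG, mem_image] at hx
    obtain ⟨i, hi, rfl⟩ := hx
    rw [hI, mem_filter] at hi
    exact ⟨hi.2, i, rfl⟩
  obtain ⟨v0, hv0G⟩ : G.Nonempty := card_pos.1 (by omega)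
  obtain ⟨a, haG⟩ : (G.erase v0).Nonempty := by
    apply card_pos.1
    rw [card_erase_of_mem hv0G]
    omega
  set U := (G.erase v0).erase a with hU
  have hUc : U.card = G.card - 1 - 1 := by
    rw [hU, card_erase_of_mem haG, card_erase_of_mem hv0G]
  obtain ⟨v1, hv1U, hred⟩ := exists_redundant {x | x ∉ B ∧ x ≠ a ∧ x ≠ v0} B
    (fun z x => T X z a x) U (by
      intro x hx
      rw [hU, mem_erase, mem_erase] at hx
      exact ⟨(hGmem x hx.2.2).1, hx.1, hx.2.1⟩) (by omega) (card_pos.1 (by omega))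
  rw [mem_erase] at haG
  rw [hU, mem_erase, mem_erase] at hv1U
  obtain ⟨hv0B, i0, hi0⟩ := hGmem v0 hv0G
  obtain ⟨haB, ia, hia⟩ := hGmem a haG.2
  obtain ⟨hv1B, i1, hi1⟩ := hGmem v1 hv1U.2.2
  obtain ⟨g, hg⟩ : ∃ g, g ∉ B ∪ {v0, a, v1} := by
    by_contra hcon
    push Not at hcon
    have h1 : (univ : Finset V) ⊆ B ∪ {v0, a, v1} := fun x _ => hcon x
    have h2 := card_le_card h1
    rw [card_univ] at h2
    have h3 := card_union_le B {v0, a, v1}
    have h4 : ({v0, a, v1} : Finset V).card ≤ 3 := card_le_three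
    omega
  simp only [mem_union, mem_insert, mem_singleton, not_or] at hg
  obtain ⟨hgB, hg0, hga, hg1⟩ := hg
  -- the relabelled second two-graph
  let t' : V → V → V → ZMod 2 := fun x y z => T Y (φ i0 x) (φ i0 y) (φ i0 z)
  have ht' : IsTG t' := isTG_comp (isTG_T Y) _
  have h1 : ∀ x y z, x ≠ v0 → y ≠ v0 → z ≠ v0 → t' x y z = T X x y z := by
    intro x y z hx hy hz
    exact (hφ i0 x y z (hi0 ▸ hx) (hi0 ▸ hy) (hi0 ▸ hz)).symm
  have h2 : ∀ (i : Fin r) (x y z : V), x ≠ v i → y ≠ v i → z ≠ v i →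
      t' (((φ i).trans (φ i0).symm) x) (((φ i).trans (φ i0).symm) y)
        (((φ i).trans (φ i0).symm) z) = T X x y z := by
    intro i x y z hx hy hz
    simp only [t', Equiv.trans_apply, Equiv.apply_symm_apply]
    exact (hφ i x y z hx hy hz).symm
  have hfix : ∀ i, v i ∉ B → v i ≠ v0 → ∀ x, x ∉ (B : Set V) →
      ((φ i).trans (φ i0).symm) x = x := by
    intro i hi hi0'
    apply fix_outside (X := X) (B := (B : Set V)) hB hi0' hi hv0B
    intro x y z hx hy hz
    rw [← h1 _ _ _ hx.2 hy.2 hz.2]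
    exact (h2 i x y z hx.1 hy.1 hz.1).symm
  have hmain := core (isTG_T X) ht' (B : Set V) hv0B hv1B haB hgB
    (Ne.symm hv1U.2.1) haG.1 (Ne.symm hv1U.1) hg0 hg1 hga
    ((φ i1).trans (φ i0).symm) ((φ ia).trans (φ i0).symm)
    (hfix i1 (hi1 ▸ hv1B) (hi1 ▸ hv1U.2.1)) (hfix ia (hia ▸ haB) (hia ▸ haG.1)) h1
    (fun x y z hx hy hz => h2 i1 x y z (hi1 ▸ hx) (hi1 ▸ hy) (hi1 ▸ hz))
    (fun x y z hx hy hz => h2 ia x y z (hia ▸ hx) (hia ▸ hy) (hia ▸ hz))
    (by
      intro z hz z' hz' h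
      apply hred z hz z' hz'
      intro x hx hxv
      exact h x hx.1 hx.2.1 hxv hx.2.2)
  rw [swEq_iff]
  refine ⟨φ i1, fun x y z => ?_⟩
  have := hmain x y z
  simp only [t', Equiv.trans_apply, Equiv.apply_symm_apply] at this
  exact this.symm

end RCD
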