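import Pool.Agent.RCD.Defs

/-! Union bound over isomorphisms between subclasses moving many points -/

open Finset

namespace RCD

open SwR

/-- the size parameter of `t` -/
noncomputable def aa {n : ℕ} (t : Fin n × Fin n × (Fin n → Fin n)) : ℕ := ((mv t).card + 2) / 3

/-- the union bound sum over the maps with parameter at least `a0` -/
noncomputable def bsumGe (n a0 : ℕ) : ℕ :=
  ∑ t ∈ (badPairs n).filter (fun t => a0 ≤ aa t), fixCount n t

theorem mv_pos {n : ℕ} {t : Fin n × Fin n × (Fin n → Fin n)} (ht : t ∈ badPairs n) :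
    1 ≤ (mv t).card := by
  classical
  unfold badPairs at ht
  rw [mem_filter] at ht
  obtain ⟨_, _, x, hx, hne⟩ := ht
  exact card_pos.2 ⟨x, by unfold mv; rw [mem_filter]; exact ⟨mem_univ _, hx, hne⟩⟩

theorem mv_lt {n : ℕ} (t : Fin n × Fin n × (Fin n → Fin n)) : (mv t).card ≤ n - 1 := by
  classical
  have h1 : mv t ⊆ univ.erase t.1 := by
    intro x hx
    unfold mv at hx
    rw [mem_filter] at hx
    exact mem_erase.2 ⟨hx.2.1.1, mem_univ _⟩
  have h2 := card_le_card h1
  rwa [card_erase_of_mem (mem_univ _), card_univ, Fintype.card_fin] at h2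

theorem fixCount_le (n : ℕ) (hn : 11 ≤ n) (t : Fin n × Fin n × (Fin n → Fin n))
    (ht : t ∈ badPairs n) :
    fixCount n t * 2 ^ (aa t * (n - 3 - 2 * aa t)) ≤ 2 ^ (n.choose 2) := by
  classical
  have hpos := mv_pos ht
  have hlt := mv_lt t
  unfold badPairs at ht
  rw [mem_filter] at ht
  obtain ⟨A, hAM, hAc, hA⟩ := exists_disjoint_image n t.1 t.2.1 t.2.2 ht.2.1 (mv t)
    (fun x hx => by unfold mv at hx; rw [mem_filter] at hx; exact hx.2) (aa t) (by
      unfold aa
      omega)
  have haa : aa t = ((mv t).card + 2) / 3 := rfl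
  have h1 := count_step n t.1 t.2.1 t.2.2 ht.2.1 A
    (fun x hx => by
      have := hAM hx
      unfold mv at this
      rw [mem_filter] at this
      exact this.2.1) hA (by omega)
  rwa [hAc] at h1

theorem count_aa (n a : ℕ) (ha : 1 ≤ a) (hn : 1 ≤ n) :
    ((badPairs n).filter (fun t => aa t = a)).card ≤ n ^ (12 * a) := by
  classical
  have h1 : ((badPairs n).filter (fun t => aa t = a)) ⊆
      (univ : Finset (Fin n)) ×ˢ ((univ : Finset (Fin n)) ×ˢ
        ((univ : Finset (Fin n → Fin n)).filter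
          (fun f => (univ.filter (fun x => f x ≠ x)).card ≤ 3 * a + 2))) := by
    intro t ht
    rw [mem_filter] at ht
    rw [mem_product, mem_product, mem_filter]
    refine ⟨mem_univ _, mem_univ _, mem_univ _, ?_⟩
    have h2 : univ.filter (fun x => t.2.2 x ≠ x) ⊆ mv t ∪ {t.1, t.2.1} := by
      intro x hx
      rw [mem_filter] at hx
      unfold mv
      rw [mem_union, mem_filter, mem_insert, mem_singleton]
      by_cases h3 : x = t.1
      · exact Or.inr (Or.inl h3)
      · by_cases h4 : x = t.2.1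
        · exact Or.inr (Or.inr h4)
        · exact Or.inl ⟨mem_univ _, ⟨h3, h4⟩, hx.2⟩
    have h3 := card_le_card h2
    have h4 := card_union_le (mv t) {t.1, t.2.1}
    have h5 : ({t.1, t.2.1} : Finset (Fin n)).card ≤ 2 := card_le_two
    have h6 : aa t = ((mv t).card + 2) / 3 := rfl
    have h7 := ht.2
    omega
  have h2 := card_le_card h1
  rw [card_product, card_product, card_univ, Fintype.card_fin] at h2
  have h3 := card_moved_le n (3 * a + 2) (by omega)
  calc _ ≤ n * (n * n ^ (2 * (3 * a + 2))) :=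
        h2.trans (Nat.mul_le_mul_left _ (Nat.mul_le_mul_left _ h3))
    _ = n ^ (6 * a + 6) := by ring
    _ ≤ n ^ (12 * a) := Nat.pow_le_pow_right (by omega) (by omega)

/-- **Union bound**, split by the parameter. -/
theorem bsumGe_le (n a0 : ℕ) (hn : 11 ≤ n) (ha0 : 1 ≤ a0) :
    (bsumGe n a0 : ℝ) ≤ ∑ a ∈ (range n).filter (fun a => a0 ≤ a ∧ 3 * a ≤ n + 1),
      (n : ℝ) ^ (12 * a) * (1 / 2) ^ (a * (n - 3 - 2 * a)) * 2 ^ (n.choose 2) := by
  classical
  unfold bsumGe
  push_cast
  have hmaps : ∀ t ∈ (badPairs n).filter (fun t => a0 ≤ aa t),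
      aa t ∈ (range n).filter (fun a => a0 ≤ a ∧ 3 * a ≤ n + 1) := by
    intro t ht
    rw [mem_filter] at ht
    rw [mem_filter, mem_range]
    have h1 := mv_lt t
    have h6 : aa t = ((mv t).card + 2) / 3 := rfl
    refine ⟨by omega, ht.2, by omega⟩
  rw [← sum_fiberwise_of_maps_to hmaps]
  apply sum_le_sum
  intro a ha
  rw [mem_filter] at ha
  have h1 : ∀ t ∈ ((badPairs n).filter (fun t => a0 ≤ aa t)).filter (fun t => aa t = a),
      (fixCount n t : ℝ) ≤ (1 / 2) ^ (a * (n - 3 - 2 * a)) * 2 ^ (n.choose 2) := by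
    intro t ht
    rw [mem_filter, mem_filter] at ht
    have h2 := fixCount_le n hn t ht.1.1
    rw [ht.2] at h2
    have h3 : ((fixCount n t * 2 ^ (a * (n - 3 - 2 * a)) : ℕ) : ℝ) ≤
        ((2 ^ (n.choose 2) : ℕ) : ℝ) := by exact_mod_cast h2
    push_cast at h3
    rw [one_div, inv_pow, inv_mul_eq_div, le_div_iff₀ (by positivity)]
    exact h3
  calc ∑ t ∈ ((badPairs n).filter (fun t => a0 ≤ aa t)).filter (fun t => aa t = a),
        (fixCount n t : ℝ)
      ≤ ∑ t ∈ ((badPairs n).filter (fun t => a0 ≤ aa t)).filter (fun t => aa t = a),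
        ((1 / 2 : ℝ) ^ (a * (n - 3 - 2 * a)) * 2 ^ (n.choose 2)) := sum_le_sum h1
    _ = (((badPairs n).filter (fun t => a0 ≤ aa t)).filter (fun t => aa t = a)).card *
        ((1 / 2 : ℝ) ^ (a * (n - 3 - 2 * a)) * 2 ^ (n.choose 2)) := by
        rw [sum_const, nsmul_eq_mul]
    _ ≤ (n : ℝ) ^ (12 * a) * ((1 / 2 : ℝ) ^ (a * (n - 3 - 2 * a)) * 2 ^ (n.choose 2)) := by
        apply mul_le_mul_of_nonneg_right _ (by positivity)
        have h2 : (((badPairs n).filter (fun t => a0 ≤ aa t)).filter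
            (fun t => aa t = a)).card ≤ n ^ (12 * a) := by
          refine le_trans (card_le_card ?_) (count_aa n a (by omega) (by omega))
          intro t ht
          rw [mem_filter, mem_filter] at ht
          rw [mem_filter]
          exact ⟨ht.1.1, ht.2⟩
        exact_mod_cast h2
    _ = _ := by ring

end RCD
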