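import Pool.Agent.RCD.Main

/-! A lower bound: many classes are not determined by some `r` of their cards -/

open Finset

namespace RCD

open SwR

/-- two disjoint cliques `[0, a)`, `[a, N)` and a graph `ρ` on `[N, n)` -/
def Bl {n : ℕ} (a N : ℕ) (ρ : SimpleGraph (Fin n)) : SimpleGraph (Fin n) where
  Adj x y := x ≠ y ∧ ((x.1 < a ∧ y.1 < a) ∨ ((a ≤ x.1 ∧ x.1 < N) ∧ (a ≤ y.1 ∧ y.1 < N)) ∨
    ((N ≤ x.1 ∧ N ≤ y.1) ∧ ρ.Adj x y))
  symm := ⟨fun x y h => by
    refine ⟨h.1.symm, ?_⟩
    rcases h.2 with h | h | h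
    · exact Or.inl h.symm
    · exact Or.inr (Or.inl h.symm)
    · exact Or.inr (Or.inr ⟨h.1.symm, h.2.symm⟩)⟩
  loopless := ⟨fun x h => h.1 rfl⟩

theorem Bl_adj {n a N : ℕ} {ρ : SimpleGraph (Fin n)} {x y : Fin n} :
    (Bl a N ρ).Adj x y ↔ x ≠ y ∧ ((x.1 < a ∧ y.1 < a) ∨
      ((a ≤ x.1 ∧ x.1 < N) ∧ (a ≤ y.1 ∧ y.1 < N)) ∨ ((N ≤ x.1 ∧ N ≤ y.1) ∧ ρ.Adj x y)) := Iff.rfl

/-- exchanging two vertices of the same clique -/
theorem Bl_swap {n a N : ℕ} (haN : a ≤ N) (ρ : SimpleGraph (Fin n)) (i j : Fin n)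
    (h : (i.1 < a ∧ j.1 < a) ∨ ((a ≤ i.1 ∧ i.1 < N) ∧ (a ≤ j.1 ∧ j.1 < N))) :
    SwEq (card (Bl a N ρ) i) (card (Bl a N ρ) j) := by
  have key : ∀ x y, (Bl a N ρ).Adj x y →
      (Bl a N ρ).Adj (Equiv.swap i j x) (Equiv.swap i j y) := by
    intro x y hxy
    rw [Bl_adj] at hxy ⊢
    refine ⟨fun h => hxy.1 ((Equiv.swap i j).injective h), ?_⟩
    have h1 : ∀ x : Fin n, (Equiv.swap i j x).1 < a ↔ x.1 < a := by
      intro x
      by_cases hx : x = i
      · subst hx; rw [Equiv.swap_apply_left]; omega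
      · by_cases hx' : x = j
        · subst hx'; rw [Equiv.swap_apply_right]; omega
        · rw [Equiv.swap_apply_of_ne_of_ne hx hx']
    have h2 : ∀ x : Fin n, (Equiv.swap i j x).1 < N ↔ x.1 < N := by
      intro x
      by_cases hx : x = i
      · subst hx; rw [Equiv.swap_apply_left]; omega
      · by_cases hx' : x = j
        · subst hx'; rw [Equiv.swap_apply_right]; omega
        · rw [Equiv.swap_apply_of_ne_of_ne hx hx']
    have h3 : ∀ x : Fin n, N ≤ x.1 → Equiv.swap i j x = x := by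
      intro x hx
      apply Equiv.swap_apply_of_ne_of_ne
      · rintro rfl; omega
      · rintro rfl; omega
    have := h1 x
    have := h1 y
    have := h2 x
    have := h2 y
    rcases hxy.2 with h' | h' | h'
    · left; omega
    · right; left; omega
    · right; right
      rw [h3 x h'.1.1, h3 y h'.1.2]
      exact h'
  have hφ : ∀ x y z, T (Bl a N ρ) x y z =
      T (Bl a N ρ) (Equiv.swap i j x) (Equiv.swap i j y) (Equiv.swap i j z) := by
    have hg : ∀ x y, g (Bl a N ρ) x y = g (Bl a N ρ) (Equiv.swap i j x) (Equiv.swap i j y) := by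
      intro x y
      rw [g_eq_iff]
      refine ⟨key x y, fun h => ?_⟩
      have := key _ _ h
      rwa [Equiv.swap_apply_self, Equiv.swap_apply_self] at this
    intro x y z
    unfold T
    rw [hg x y, hg y z, hg x z]
  have h1 := swEq_card hφ i
  rwa [Equiv.swap_apply_left] at h1

/-- the common card -/
theorem Bl_common {n r N : ℕ} (hr : 1 ≤ r) (ρ : SimpleGraph (Fin n)) (w : Fin n)
    (hw : w.1 = r - 1) : SwEq (card (Bl r N ρ) w) (card (Bl (r - 1) N ρ) w) := by
  rw [swEq_iff]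
  refine ⟨Equiv.refl _, fun x y z => ?_⟩
  have hne : ∀ x : ({w}ᶜ : Set (Fin n)), x.1.1 ≠ r - 1 := by
    intro x h
    exact x.2 (by
      rw [Set.mem_singleton_iff]
      exact Fin.ext (h.trans hw.symm))
  have hg : ∀ x y : ({w}ᶜ : Set (Fin n)), g (Bl r N ρ) x.1 y.1 = g (Bl (r - 1) N ρ) x.1 y.1 := by
    intro x y
    rw [g_eq_iff, Bl_adj, Bl_adj]
    have h1 := hne x
    have h2 := hne y
    constructor
    · rintro ⟨h, h'⟩
      refine ⟨h, ?_⟩
      rcases h' with h' | h' | h'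
      · left; omega
      · right; left; omega
      · right; right; exact h'
    · rintro ⟨h, h'⟩
      refine ⟨h, ?_⟩
      rcases h' with h' | h' | h'
      · left; omega
      · right; left; omega
      · right; right; exact h'
  rw [T_induce, T_induce]
  simp only [Equiv.refl_apply]
  unfold T
  rw [hg x y, hg y z, hg x z]

open Classical in
/-- ordered pairs all of whose triples are odd -/
noncomputable def odd2 {n : ℕ} (X : SimpleGraph (Fin n)) : Finset (Fin n × Fin n) :=
  univ.filter fun p => p.1 ≠ p.2 ∧ ∀ z, z ≠ p.1 → z ≠ p.2 → T X p.1 p.2 z = 1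

theorem odd2_card_congr {n : ℕ} {X Y : SimpleGraph (Fin n)} (h : SwEq X Y) :
    (odd2 X).card = (odd2 Y).card := by
  classical
  have key : ∀ {X Y : SimpleGraph (Fin n)}, SwEq X Y → (odd2 X).card ≤ (odd2 Y).card := by
    intro X Y h
    obtain ⟨φ, hφ⟩ := (swEq_iff _ _).1 h
    apply card_le_card_of_injOn (fun p => (φ p.1, φ p.2))
    · intro p hp
      unfold odd2 at hp ⊢
      rw [mem_coe, mem_filter] at hp ⊢
      refine ⟨mem_univ _, fun h => hp.2.1 (φ.injective h), ?_⟩
      intro z hz1 hz2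
      simp only at hz1 hz2
      have h1 := hp.2.2 (φ.symm z) (fun h => hz1 (by rw [← h, φ.apply_symm_apply]))
        (fun h => hz2 (by rw [← h, φ.apply_symm_apply]))
      rw [hφ, φ.apply_symm_apply] at h1
      exact h1
    · intro p _ q _ hpq
      simp only [Prod.mk.injEq] at hpq
      exact Prod.ext (φ.injective hpq.1) (φ.injective hpq.2)
  exact le_antisymm (key h) (key (SwEq.symm h))

theorem g_one {V : Type*} {X : SimpleGraph V} {x y : V} (h : X.Adj x y) : g X x y = 1 := by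
  unfold g; rw [if_pos h]

theorem g_zero {V : Type*} {X : SimpleGraph V} {x y : V} (h : ¬ X.Adj x y) : g X x y = 0 := by
  unfold g; rw [if_neg h]

open Classical in
/-- the pairs in the rest -/
noncomputable def oddR {n : ℕ} (N : ℕ) (X : SimpleGraph (Fin n)) : Finset (Fin n × Fin n) :=
  (odd2 X).filter fun p => N ≤ p.1.1 ∧ N ≤ p.2.1

theorem oddR_eq {n : ℕ} (a b N : ℕ) (ha : a ≤ N) (hb : b ≤ N) (ρ : SimpleGraph (Fin n)) :
    oddR N (Bl a N ρ) = oddR N (Bl b N ρ) := by
  classical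
  have hg : ∀ x y : Fin n, N ≤ x.1 → g (Bl a N ρ) x y = g (Bl b N ρ) x y := by
    intro x y hx
    rw [g_eq_iff, Bl_adj, Bl_adj]
    constructor
    · rintro ⟨h, h'⟩
      refine ⟨h, ?_⟩
      rcases h' with h' | h' | h'
      · omega
      · omega
      · right; right; exact h'
    · rintro ⟨h, h'⟩
      refine ⟨h, ?_⟩
      rcases h' with h' | h' | h'
      · omega
      · omega
      · right; right; exact h'
  have hT : ∀ x y z : Fin n, N ≤ x.1 → N ≤ y.1 → T (Bl a N ρ) x y z = T (Bl b N ρ) x y z := by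
    intro x y z hx hy
    unfold T
    rw [hg x y hx, hg y z hy, hg x z hx]
  ext p
  unfold oddR odd2
  simp only [mem_filter, mem_univ, true_and]
  constructor
  · rintro ⟨⟨h1, h2⟩, h3⟩
    exact ⟨⟨h1, fun z hz hz' => by rw [← hT _ _ _ h3.1 h3.2]; exact h2 z hz hz'⟩, h3⟩
  · rintro ⟨⟨h1, h2⟩, h3⟩
    exact ⟨⟨h1, fun z hz hz' => by rw [hT _ _ _ h3.1 h3.2]; exact h2 z hz hz'⟩, h3⟩

open Classical in
theorem odd2_Bl {n : ℕ} (a N : ℕ) (ha1 : 1 ≤ a) (haN : a < N) (hN : N < n)
    (ρ : SimpleGraph (Fin n)) :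
    odd2 (Bl a N ρ) = (univ.filter fun x : Fin n => x.1 < a).offDiag ∪
      ((univ.filter fun x : Fin n => a ≤ x.1 ∧ x.1 < N).offDiag ∪ oddR N (Bl a N ρ)) := by
  ext ⟨x, y⟩
  simp only [mem_union, mem_offDiag, mem_filter, mem_univ, true_and, oddR]
  constructor
  · intro hp
    have hp' := hp
    unfold odd2 at hp'
    rw [mem_filter] at hp'
    obtain ⟨_, hne, hT⟩ := hp'
    simp only at hne hT
    by_cases hR : N ≤ x.1 ∧ N ≤ y.1
    · exact Or.inr (Or.inr ⟨hp, hR⟩)
    by_cases hA : x.1 < a ∧ y.1 < a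
    · exact Or.inl ⟨hA.1, hA.2, hne⟩
    by_cases hB : (a ≤ x.1 ∧ x.1 < N) ∧ (a ≤ y.1 ∧ y.1 < N)
    · exact Or.inr (Or.inl ⟨hB.1, hB.2, hne⟩)
    exfalso
    -- a third vertex in the third part
    have hz : ∃ z : Fin n, z ≠ x ∧ z ≠ y ∧ ¬ (Bl a N ρ).Adj x y ∧ ¬ (Bl a N ρ).Adj y z ∧
        ¬ (Bl a N ρ).Adj x z := by
      have hxn := x.2
      have hyn := y.2
      by_cases h1 : x.1 < N ∧ y.1 < N
      · refine ⟨⟨N, hN⟩, ?_, ?_, ?_, ?_, ?_⟩
        · intro h; rw [← h] at h1; simp only at h1; omega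
        · intro h; rw [← h] at h1; simp only at h1; omega
        · rw [Bl_adj]; rintro ⟨_, h⟩; rcases h with h | h | h <;> omega
        · rw [Bl_adj]; rintro ⟨_, h⟩; rcases h with h | h | h <;> simp only at h <;> omega
        · rw [Bl_adj]; rintro ⟨_, h⟩; rcases h with h | h | h <;> simp only at h <;> omega
      · by_cases h2 : x.1 < a ∨ y.1 < a
        · refine ⟨⟨a, by omega⟩, ?_, ?_, ?_, ?_, ?_⟩
          · intro h; rw [← h] at h1 h2 hR; simp only at h1 h2 hR; omega
          · intro h; rw [← h] at h1 h2 hR; simp only at h1 h2 hR; omega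
          · rw [Bl_adj]; rintro ⟨_, h⟩; rcases h with h | h | h <;> omega
          · rw [Bl_adj]; rintro ⟨_, h⟩; rcases h with h | h | h <;> simp only at h <;> omega
          · rw [Bl_adj]; rintro ⟨_, h⟩; rcases h with h | h | h <;> simp only at h <;> omega
        · refine ⟨⟨0, by omega⟩, ?_, ?_, ?_, ?_, ?_⟩
          · intro h; rw [← h] at h1 h2 hR; simp only at h1 h2 hR; omega
          · intro h; rw [← h] at h1 h2 hR; simp only at h1 h2 hR; omega
          · rw [Bl_adj]; rintro ⟨_, h⟩; rcases h with h | h | h <;> omega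
          · rw [Bl_adj]; rintro ⟨_, h⟩; rcases h with h | h | h <;> simp only at h <;> omega
          · rw [Bl_adj]; rintro ⟨_, h⟩; rcases h with h | h | h <;> simp only at h <;> omega
    obtain ⟨z, hzx, hzy, h1, h2, h3⟩ := hz
    have h4 := hT z hzx hzy
    unfold T at h4
    rw [g_zero h1, g_zero h2, g_zero h3] at h4
    exact absurd h4 (by decide)
  · have hclique : ∀ (C : Fin n → Prop), (∀ u v, C u → C v → u ≠ v → (Bl a N ρ).Adj u v) →
        (∀ u v, C u → ¬ C v → ¬ (Bl a N ρ).Adj u v) → ∀ u v, C u → C v → u ≠ v →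
        (u, v) ∈ odd2 (Bl a N ρ) := by
      intro C h1 h2 u v hu hv huv
      unfold odd2
      rw [mem_filter]
      refine ⟨mem_univ _, huv, ?_⟩
      intro z hz1 hz2
      simp only at hz1 hz2 ⊢
      unfold T
      by_cases hz : C z
      · rw [g_one (h1 u v hu hv huv), g_one (h1 v z hv hz hz2.symm),
          g_one (h1 u z hu hz hz1.symm)]
        decide
      · rw [g_one (h1 u v hu hv huv), g_zero (h2 v z hv hz), g_zero (h2 u z hu hz)]
        decide
    rintro (⟨hx, hy, hne⟩ | ⟨hx, hy, hne⟩ | h)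
    · refine hclique (fun u => u.1 < a) ?_ ?_ x y hx hy hne
      · intro u v hu hv huv
        exact ⟨huv, Or.inl ⟨hu, hv⟩⟩
      · intro u v hu hv
        rw [Bl_adj]; rintro ⟨_, h⟩; rcases h with h | h | h <;> omega
    · refine hclique (fun u => a ≤ u.1 ∧ u.1 < N) ?_ ?_ x y hx hy hne
      · intro u v hu hv huv
        exact ⟨huv, Or.inr (Or.inl ⟨hu, hv⟩)⟩
      · intro u v hu hv
        rw [Bl_adj]; rintro ⟨_, h⟩; rcases h with h | h | h <;> omega
    · exact h.1

open Classical in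
theorem odd2_Bl_card {n : ℕ} (a N : ℕ) (ha1 : 1 ≤ a) (haN : a < N) (hN : N < n)
    (ρ : SimpleGraph (Fin n)) :
    (odd2 (Bl a N ρ)).card = (a * a - a) + (((N - a) * (N - a) - (N - a)) +
      (oddR N (Bl a N ρ)).card) := by
  have hA : (univ.filter fun x : Fin n => x.1 < a).card = a := by
    rw [Fin.card_filter_val_lt]
    omega
  have hB : (univ.filter fun x : Fin n => a ≤ x.1 ∧ x.1 < N).card = N - a := by
    have h1 : (univ.filter fun x : Fin n => x.1 < N) =
        (univ.filter fun x : Fin n => x.1 < a) ∪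
          (univ.filter fun x : Fin n => a ≤ x.1 ∧ x.1 < N) := by
      ext x
      simp only [mem_union, mem_filter, mem_univ, true_and]
      omega
    have h2 : (univ.filter fun x : Fin n => x.1 < N).card = N := by
      rw [Fin.card_filter_val_lt]
      omega
    rw [h1, card_union_of_disjoint, hA] at h2
    · omega
    · rw [disjoint_left]
      intro x h3 h4
      rw [mem_filter] at h3 h4
      omega
  rw [odd2_Bl a N ha1 haN hN, card_union_of_disjoint, card_union_of_disjoint, offDiag_card,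
    offDiag_card, hA, hB]
  · rw [disjoint_left]
    rintro ⟨x, y⟩ h3 h4
    rw [mem_offDiag, mem_filter] at h3
    unfold oddR at h4
    rw [mem_filter] at h4
    have h5 := h3.1.2.2
    have h6 := h4.2.1
    simp only at h5 h6
    omega
  · rw [disjoint_left]
    rintro ⟨x, y⟩ h3 h4
    rw [mem_offDiag, mem_filter] at h3
    rw [mem_union, mem_offDiag, mem_filter] at h4
    have h5 := h3.1.2
    rcases h4 with h4 | h4
    · have h6 := h4.1.2.1
      simp only at h5 h6
      omega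
    · unfold oddR at h4
      rw [mem_filter] at h4
      have h6 := h4.2.1
      simp only at h5 h6
      omega

/-- the two graphs are not switching equivalent -/
theorem Bl_not_swEq {n r : ℕ} (hr : 2 ≤ r) (hn : 2 * r < n) (ρ : SimpleGraph (Fin n)) :
    ¬ SwEq (Bl r (2 * r) ρ) (Bl (r - 1) (2 * r) ρ) := by
  intro h
  have h1 := odd2_card_congr h
  rw [odd2_Bl_card r (2 * r) (by omega) (by omega) hn,
    odd2_Bl_card (r - 1) (2 * r) (by omega) (by omega) hn,
    oddR_eq r (r - 1) (2 * r) (by omega) (by omega)] at h1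
  obtain ⟨s, rfl⟩ : ∃ s, r = s + 2 := ⟨r - 2, by omega⟩
  have e1 : 2 * (s + 2) - (s + 2) = s + 2 := by omega
  have e2 : s + 2 - 1 = s + 1 := by omega
  have e3 : 2 * (s + 2) - (s + 1) = s + 3 := by omega
  rw [e1, e2, e3] at h1
  have e4 : (s + 2) * (s + 2) - (s + 2) = s * s + 3 * s + 2 := by
    have : (s + 2) * (s + 2) = (s * s + 3 * s + 2) + (s + 2) := by ring
    omega
  have e5 : (s + 1) * (s + 1) - (s + 1) = s * s + s := by
    have : (s + 1) * (s + 1) = (s * s + s) + (s + 1) := by ring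
    omega
  have e6 : (s + 3) * (s + 3) - (s + 3) = s * s + 5 * s + 6 := by
    have : (s + 3) * (s + 3) = (s * s + 5 * s + 6) + (s + 3) := by ring
    omega
  rw [e4, e5, e6] at h1
  omega

/-- these classes are not determined by some `r` cards -/
theorem Bl_not_rcards {n r : ℕ} (hr : 2 ≤ r) (hn : 2 * r < n) (ρ : SimpleGraph (Fin n)) :
    ¬ RCards r (Bl r (2 * r) ρ) := by
  intro h
  apply Bl_not_swEq hr hn ρ
  refine h (Bl (r - 1) (2 * r) ρ) (fun i => ⟨i.1, by omega⟩) (fun i => ⟨r - 1 + i.1, by omega⟩)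
    ?_ ?_ ?_
  · intro i j hij
    simp only [Fin.mk.injEq] at hij
    exact Fin.ext hij
  · intro i j hij
    simp only [Fin.mk.injEq] at hij
    exact Fin.ext (by omega)
  · intro i
    have h1 : SwEq (card (Bl r (2 * r) ρ) ⟨i.1, by omega⟩)
        (card (Bl r (2 * r) ρ) ⟨r - 1, by omega⟩) :=
      Bl_swap (by omega) ρ _ _ (Or.inl ⟨i.2, by simp only; omega⟩)
    have h2 : SwEq (card (Bl r (2 * r) ρ) ⟨r - 1, by omega⟩)
        (card (Bl (r - 1) (2 * r) ρ) ⟨r - 1, by omega⟩) :=
      Bl_common (by omega) ρ _ rfl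
    have h3 : SwEq (card (Bl (r - 1) (2 * r) ρ) ⟨r - 1, by omega⟩)
        (card (Bl (r - 1) (2 * r) ρ) ⟨r - 1 + i.1, by omega⟩) :=
      Bl_swap (by omega) ρ _ _ (Or.inr ⟨by simp only; omega, by simp only; omega⟩)
    exact (h1.trans h2).trans h3

end RCD
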