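import Pool.Agent.RCD.Low

/-! A lower bound for the proportion of the classes not determined by some `r` cards -/

open Finset

namespace RCD

open SwR

/-- A switching class all of whose members are determined by any `r` cards. -/
def ClassRCards {n : ℕ} (r : ℕ) (c : Cls n) : Prop :=
  ∀ X : SimpleGraph (Fin n), Quotient.mk (swSetoid n) X = c → RCards r X

open Classical in
theorem labelled_low {n r : ℕ} (hr : 2 ≤ r) (hn : 2 * r < n) :
    2 ^ ((n - 2 * r).choose 2) ≤
      ((univ : Finset (SimpleGraph (Fin n))).filter fun X => ¬ RCards r X).card := by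
  set m := n - 2 * r with hm
  let f : Fin m ↪ Fin n := ⟨fun i => ⟨2 * r + i.1, by omega⟩, by
    intro i j hij
    simp only [Fin.mk.injEq] at hij
    exact Fin.ext (by omega)⟩
  have hf : ∀ i, (f i).1 = 2 * r + i.1 := fun i => rfl
  rw [← card_graphs, ← card_univ]
  apply card_le_card_of_injOn (fun ρ : SimpleGraph (Fin m) => Bl r (2 * r) (ρ.map f))
  · intro ρ _
    rw [mem_coe, mem_filter]
    exact ⟨mem_univ _, Bl_not_rcards hr hn _⟩
  · intro ρ _ ρ' _ h
    have key : ∀ ρ : SimpleGraph (Fin m), ∀ i j, (Bl r (2 * r) (ρ.map f)).Adj (f i) (f j) ↔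
        ρ.Adj i j := by
      intro ρ i j
      rw [Bl_adj]
      constructor
      · rintro ⟨_, h'⟩
        rw [hf, hf] at h'
        rcases h' with h' | h' | h'
        · omega
        · omega
        · exact (SimpleGraph.map_adj_apply).1 h'.2
      · intro h'
        refine ⟨fun h2 => h'.ne (f.injective h2), Or.inr (Or.inr ⟨?_, ?_⟩)⟩
        · rw [hf, hf]; omega
        · exact (SimpleGraph.map_adj_apply).2 h'
    ext i j
    rw [← key ρ i j, ← key ρ' i j]
    simp only at h
    rw [h]

theorem bsum_le {n : ℕ} (hn : 4096 ≤ n) : (bsum n : ℝ) ≤ 2 ^ (n.choose 2) := by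
  have h0 : 2 * n ^ 12 ≤ 2 ^ ((n - 11) / 3) := by
    have h1 := pow_nat_le_F n 12 hn
    have hn' : (4096 : ℝ) ≤ n := by exact_mod_cast hn
    have h2 : (2 : ℝ) * n ^ 12 ≤ 2 ^ ((n - 11) / 3) := by
      have h3 : F 1 = 2 := by
        have := F_nat 1
        norm_num at this
        exact this
      rw [← F_nat, ← h3]
      calc F 1 * (n : ℝ) ^ 12 ≤ F 1 * F ((12 : ℕ) * ((n : ℝ) / 320)) :=
            mul_le_mul_of_nonneg_left h1 (F_pos _).le
        _ = F (1 + (12 : ℕ) * ((n : ℝ) / 320)) := by rw [F_add]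
        _ ≤ F (((n - 11) / 3 : ℕ) : ℝ) := by
            apply F_mono
            have h4 : n ≤ 3 * ((n - 11) / 3) + 13 := by omega
            have h5 : (n : ℝ) ≤ 3 * (((n - 11) / 3 : ℕ) : ℝ) + 13 := by exact_mod_cast h4
            push_cast
            linarith
    exact_mod_cast h2
  have h1 := union_bound n (by omega) h0
  refine le_trans h1 ?_
  have h2 : (n : ℝ) ^ 12 / 2 ^ ((n - 11) / 3) ≤ 1 / 2 := by
    rw [div_le_iff₀ (by positivity)]
    have : ((2 * n ^ 12 : ℕ) : ℝ) ≤ ((2 ^ ((n - 11) / 3) : ℕ) : ℝ) := by exact_mod_cast h0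
    push_cast at this
    linarith
  have h3 : (0 : ℝ) < 2 ^ (n.choose 2) := by positivity
  nlinarith

open Classical in
/-- **Lower bound.** -/
theorem unlabelled_low {n r : ℕ} (hn4 : 4096 ≤ n) (hr : 2 ≤ r) (hn : 2 * r < n) :
    (2 : ℝ) ^ (-(2 * (r : ℝ) * n)) * Fintype.card (Cls n) ≤
      (((univ : Finset (Cls n)).filter fun c => ¬ ClassRCards r c).card : ℝ) := by
  set K := Fintype.card (Equiv.Perm (Fin n)) * kap n with hK
  set P : SimpleGraph (Fin n) → Prop := fun X => ¬ RCards r X with hP
  set S := (univ : Finset (SimpleGraph (Fin n))).filter P with hS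
  have hKpos : 0 < K := by
    rw [hK]
    apply Nat.mul_pos Fintype.card_pos
    unfold kap
    apply card_pos.2
    refine ⟨⊥, ?_⟩
    rw [mem_filter]
    refine ⟨mem_univ _, fun x y z => ?_⟩
    unfold T
    have : ∀ x y : Fin n, g (⊥ : SimpleGraph (Fin n)) x y = 0 := fun x y => g_zero (by simp)
    rw [this, this, this]
    rfl
  -- lower bound for the classes
  have h1 : 2 ^ ((n - 2 * r).choose 2) ≤
      ((univ : Finset (Cls n)).filter fun c => ¬ ClassRCards r c).card * K := by
    have h2 : (S.image (Quotient.mk (swSetoid n))).card * K = ∑ X ∈ S, (auts X).card := by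
      have h := sum_auts_invariant n P
        (fun X Y hXY hX hY => hX (RCards.congr (SwEq.symm hXY) hY))
      rw [hS, hK]
      convert h
    have h3 : (S.image (Quotient.mk (swSetoid n))).card ≤
        ((univ : Finset (Cls n)).filter fun c => ¬ ClassRCards r c).card := by
      apply card_le_card
      intro c hc
      rw [mem_image] at hc
      obtain ⟨X, hX, rfl⟩ := hc
      rw [hS, mem_filter] at hX
      rw [mem_filter]
      exact ⟨mem_univ _, fun h => hX.2 (h X rfl)⟩
    have h4 : 2 ^ ((n - 2 * r).choose 2) ≤ S.card := by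
      have := labelled_low hr hn
      rw [hS]
      convert this
    calc 2 ^ ((n - 2 * r).choose 2) ≤ S.card := h4
      _ = ∑ X ∈ S, 1 := by rw [sum_const, smul_eq_mul, mul_one]
      _ ≤ ∑ X ∈ S, (auts X).card :=
          sum_le_sum (fun X _ => card_pos.2 ⟨1, one_mem_auts X⟩)
      _ = (S.image (Quotient.mk (swSetoid n))).card * K := h2.symm
      _ ≤ _ := Nat.mul_le_mul_right _ h3
  -- upper bound for the number of classes
  have h4 : (Fintype.card (Cls n) * K : ℝ) ≤ 2 * 2 ^ (n.choose 2) := by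
    have h2 := sum_auts_invariant n (fun _ => True) (fun _ _ _ h => h)
    rw [← hK] at h2
    have h7 : ∀ inst : DecidablePred fun _ : SimpleGraph (Fin n) => True,
        (@Finset.filter _ (fun _ => True) inst univ) = univ := by
      intro inst
      ext X
      simp
    rw [h7] at h2
    have h5 : (univ : Finset (SimpleGraph (Fin n))).image (Quotient.mk (swSetoid n)) = univ := by
      ext c
      simp only [mem_image, mem_univ, true_and, iff_true]
      exact Quotient.exists_rep c
    rw [h5, card_univ] at h2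
    have h6 : ∑ X : SimpleGraph (Fin n), (auts X).card ≤ 2 ^ (n.choose 2) + bsum n := by
      calc ∑ X : SimpleGraph (Fin n), (auts X).card
          = ∑ X : SimpleGraph (Fin n), (((auts X).erase 1).card + 1) := by
            apply sum_congr rfl
            intro X _
            rw [card_erase_add_one (one_mem_auts X)]
        _ = ∑ X : SimpleGraph (Fin n), ((auts X).erase 1).card +
            Fintype.card (SimpleGraph (Fin n)) := by
            rw [sum_add_distrib, sum_const, smul_eq_mul, mul_one, card_univ]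
        _ ≤ bsum n + Fintype.card (SimpleGraph (Fin n)) :=
            Nat.add_le_add_right (sum_nontrivial_auts n) _
        _ = _ := by rw [card_graphs, add_comm]
    have h8 : ((Fintype.card (Cls n) * K : ℕ) : ℝ) ≤ ((2 ^ (n.choose 2) + bsum n : ℕ) : ℝ) := by
      have : Fintype.card (Cls n) * K ≤ 2 ^ (n.choose 2) + bsum n := by
        rw [h2]; exact h6
      exact_mod_cast this
    push_cast at h8
    have h9 := bsum_le hn4
    linarith
  -- comparison of the exponents
  have h5 : (2 : ℝ) ^ (-(2 * (r : ℝ) * n)) * (2 * 2 ^ (n.choose 2)) ≤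
      2 ^ ((n - 2 * r).choose 2) := by
    have e1 : (n.choose 2) + 1 ≤ (n - 2 * r).choose 2 + 2 * r * n := by
      obtain ⟨m, rfl⟩ : ∃ m, n = m + 2 * r := ⟨n - 2 * r, by omega⟩
      rw [Nat.add_sub_cancel]
      have a1 : (m + 2 * r).choose 2 * 2 = (m + 2 * r) * (m + 2 * r - 1) := by
        rw [Nat.choose_two_right]
        exact Nat.div_mul_cancel (Nat.even_mul_pred_self _).two_dvd
      have a2 : m.choose 2 * 2 = m * (m - 1) := by
        rw [Nat.choose_two_right]
        exact Nat.div_mul_cancel (Nat.even_mul_pred_self _).two_dvd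
      obtain ⟨k, rfl⟩ : ∃ k, m = k + 1 := ⟨m - 1, by omega⟩
      obtain ⟨q, rfl⟩ : ∃ q, r = q + 1 := ⟨r - 1, by omega⟩
      have a3 : k + 1 + 2 * (q + 1) - 1 = k + 2 * (q + 1) := by omega
      have a4 : k + 1 - 1 = k := by omega
      rw [a3] at a1
      rw [a4] at a2
      generalize (k + 1 + 2 * (q + 1)).choose 2 = c1 at a1 ⊢
      generalize (k + 1).choose 2 = c2 at a2 ⊢
      have a5 : (k + 1 + 2 * (q + 1)) * (k + 2 * (q + 1)) + 2 ≤
          (k + 1) * k + 2 * (2 * (q + 1) * (k + 1 + 2 * (q + 1))) := by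
        have : (k + 1) * k + 2 * (2 * (q + 1) * (k + 1 + 2 * (q + 1))) =
            (k + 1 + 2 * (q + 1)) * (k + 2 * (q + 1)) + 2 + (4 * q * q + 10 * q + 4) := by ring
        omega
      omega
    have e2 : (2 : ℝ) * 2 ^ (n.choose 2) ≤ 2 ^ ((n - 2 * r).choose 2) * 2 ^ (2 * r * n) := by
      rw [← pow_succ', ← pow_add]
      exact pow_le_pow_right₀ (by norm_num) e1
    have e3 : (2 : ℝ) ^ (-(2 * (r : ℝ) * n)) = 1 / 2 ^ (2 * r * n) := by
      rw [Real.rpow_neg (by norm_num), one_div]
      congr 1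
      rw [← Real.rpow_natCast]
      push_cast
      rfl
    rw [e3, one_div, inv_mul_le_iff₀ (by positivity), mul_comm]
    rw [mul_comm (2 ^ (2 * r * n) : ℝ)]
    rw [mul_comm]
    exact e2
  have hK' : (0 : ℝ) < K := by exact_mod_cast hKpos
  have h6 : ((2 : ℝ) ^ (-(2 * (r : ℝ) * n)) * Fintype.card (Cls n)) * K ≤
      (((univ : Finset (Cls n)).filter fun c => ¬ ClassRCards r c).card : ℝ) * K := by
    calc ((2 : ℝ) ^ (-(2 * (r : ℝ) * n)) * Fintype.card (Cls n)) * K
        = (2 : ℝ) ^ (-(2 * (r : ℝ) * n)) * (Fintype.card (Cls n) * K) := by ring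
      _ ≤ (2 : ℝ) ^ (-(2 * (r : ℝ) * n)) * (2 * 2 ^ (n.choose 2)) :=
          mul_le_mul_of_nonneg_left h4 (Real.rpow_nonneg (by norm_num) _)
      _ ≤ 2 ^ ((n - 2 * r).choose 2) := h5
      _ ≤ _ := by exact_mod_cast h1
  exact le_of_mul_le_mul_right h6 hK'

end RCD
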