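import Mathlib

/-! Ore's lemma: in a graph without isolated vertices at least half of the vertices can be chosen
such that each has a neighbour among the others. -/

open Finset

namespace RCD

theorem ore {V : Type*} [DecidableEq V] (B : Finset V) (R : V → V → Prop)
    (hs : ∀ x y, R x y → R y x) (h : ∀ z ∈ B, ∃ z' ∈ B, z' ≠ z ∧ R z z') :
    ∃ L ⊆ B, B.card ≤ 2 * L.card ∧ ∀ z ∈ L, ∃ z' ∈ B, z' ∉ L ∧ R z z' := by
  classical
  set P : Finset V → Prop := fun D => ∀ z ∈ B, z ∉ D → ∃ z' ∈ D, R z z' with hP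
  obtain ⟨D, hD, hmin⟩ := exists_min_image ((B.powerset).filter P) card
    ⟨B, by
      rw [mem_filter, mem_powerset]
      exact ⟨Subset.refl B, fun z hz hz' => absurd hz hz'⟩⟩
  rw [mem_filter, mem_powerset] at hD
  obtain ⟨hDB, hDP⟩ := hD
  have hcomp : ∀ d ∈ D, ∃ z' ∈ B, z' ∉ D ∧ R d z' := by
    by_contra hcon
    push Not at hcon
    obtain ⟨d, hd, hd'⟩ := hcon
    have h1 : D.erase d ∈ (B.powerset).filter P := by
      rw [mem_filter, mem_powerset]
      refine ⟨(erase_subset _ _).trans hDB, ?_⟩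
      intro z hz hzD
      by_cases hzd : z = d
      · subst hzd
        obtain ⟨z', hz'B, hne, hR⟩ := h z hz
        refine ⟨z', mem_erase.2 ⟨hne, ?_⟩, hR⟩
        by_contra h2
        exact hd' z' hz'B h2 hR
      · have hzD' : z ∉ D := fun h2 => hzD (mem_erase.2 ⟨hzd, h2⟩)
        obtain ⟨z', hz'D, hR⟩ := hDP z hz hzD'
        refine ⟨z', mem_erase.2 ⟨?_, hz'D⟩, hR⟩
        rintro rfl
        exact hd' z hz hzD' (hs _ _ hR)
    have h2 := hmin _ h1
    have h3 := card_erase_lt_of_mem hd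
    omega
  by_cases hc : B.card ≤ 2 * D.card
  · exact ⟨D, hDB, hc, hcomp⟩
  · refine ⟨B \ D, sdiff_subset, ?_, ?_⟩
    · rw [card_sdiff_of_subset hDB]
      omega
    · intro z hz
      rw [mem_sdiff] at hz
      obtain ⟨z', hz'D, hR⟩ := hDP z hz.1 hz.2
      exact ⟨z', hDB hz'D, fun h2 => (mem_sdiff.1 h2).2 hz'D, hR⟩

end RCD
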