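import Pool.Agent.RCD.Defs
import Pool.Agent.RCD.Ore

/-! Counting graphs with many near-twins -/

open Finset

namespace RCD

open SwR

variable {V : Type*}

theorem Near.symm {X : SimpleGraph V} {e : ℕ} {z z' : V} (h : Near X e z z') : Near X e z' z := by
  obtain ⟨E, h1, h2, h3, h4⟩ := h
  exact ⟨E, h1, h3, h2, fun x hx y hy => (h4 x hx y hy).symm⟩

/-- if no isomorphism between subclasses moves `m` points, all moved vertices have near-twins -/
theorem near_of_few {n : ℕ} {X : SimpleGraph (Fin n)} {m : ℕ}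
    (h : ∀ t ∈ badPairs n, Pres X t.1 t.2.1 t.2.2 → (mv t).card < m) :
    ∀ z ∈ moved X, ∃ z' ∈ moved X, z' ≠ z ∧ Near X (m + 1) z z' := by
  classical
  have key : ∀ (u v : Fin n) (f : Fin n → Fin n), SubIso X u v f → ∀ x, (x ≠ u ∧ x ≠ v) →
      f x ≠ x → Near X (m + 1) x (f x) := by
    intro u v f hf x hx hfx
    have ht : (u, v, f) ∈ badPairs n := by
      unfold badPairs
      rw [mem_filter]
      exact ⟨mem_univ _, hf.1, x, hx, hfx⟩
    have hc := h _ ht hf.2
    refine ⟨mv (u, v, f) ∪ {u, v}, ?_, ?_, ?_, ?_⟩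
    · have h1 := card_union_le (mv (u, v, f)) {u, v}
      have h2 : ({u, v} : Finset (Fin n)).card ≤ 2 := card_le_two
      omega
    · rw [mem_union]
      left
      unfold mv
      rw [mem_filter]
      exact ⟨mem_univ _, hx, hfx⟩
    · by_contra h1
      rw [mem_union, mem_insert, mem_singleton, not_or, not_or] at h1
      obtain ⟨h2, h3, h4⟩ := h1
      have h5 : f (f x) = f x := by
        by_contra h6
        apply h2
        unfold mv
        rw [mem_filter]
        exact ⟨mem_univ _, ⟨h3, h4⟩, h6⟩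
      exact hfx (hf.1 (f x) x ⟨h3, h4⟩ hx h5)
    · have hF : ∀ y, y ∉ mv (u, v, f) ∪ {u, v} → (y ≠ u ∧ y ≠ v) ∧ f y = y := by
        intro y hy
        rw [mem_union, mem_insert, mem_singleton, not_or, not_or] at hy
        obtain ⟨h2, h3, h4⟩ := hy
        refine ⟨⟨h3, h4⟩, ?_⟩
        by_contra h6
        apply h2
        unfold mv
        rw [mem_filter]
        exact ⟨mem_univ _, ⟨h3, h4⟩, h6⟩
      intro y hy y' hy'
      obtain ⟨h1, h2⟩ := hF y hy
      obtain ⟨h3, h4⟩ := hF y' hy'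
      have h5 := hf.2 x y y' hx h1 h3
      rw [h2, h4] at h5
      exact h5
  rintro z ⟨u, v, f, hf, x, hx, hfx, hz⟩
  have hk := key u v f hf x hx hfx
  rcases hz with rfl | rfl
  · exact ⟨f z, ⟨u, v, f, hf, z, hx, hfx, Or.inr rfl⟩, hfx, hk⟩
  · exact ⟨x, ⟨u, v, f, hf, x, hx, hfx, Or.inl rfl⟩, hfx.symm, hk.symm⟩

/-- `k` vertices `ℓ i` with near-twins `f i` outside of them -/
def Twins {n : ℕ} (X : SimpleGraph (Fin n)) (k e : ℕ) : Prop :=
  ∃ (ℓ f : Fin k → Fin n) (E : Fin k → {E : Finset (Fin n) // E.card ≤ e}),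
    Function.Injective ℓ ∧ (∀ i j, f i ≠ ℓ j) ∧
      ∀ i x, x ∉ (E i).1 → ∀ y, y ∉ (E i).1 → T X (ℓ i) x y = T X (f i) x y

theorem twins_of_few {n : ℕ} {X : SimpleGraph (Fin n)} {m k : ℕ}
    (h : ∀ t ∈ badPairs n, Pres X t.1 t.2.1 t.2.2 → (mv t).card < m)
    (B : Finset (Fin n)) (hB : ∀ z, z ∈ B ↔ z ∈ moved X) (hk : 2 * k ≤ B.card + 1) :
    Twins X k (m + 1) := by
  classical
  have h1 := near_of_few h
  obtain ⟨L, hLB, hLc, hL⟩ := ore B (Near X (m + 1)) (fun x y => Near.symm) (by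
    intro z hz
    obtain ⟨z', hz', hne, hN⟩ := h1 z ((hB z).1 hz)
    exact ⟨z', (hB z').2 hz', hne, hN⟩)
  obtain ⟨L', hL'L, hL'c⟩ := exists_subset_card_eq (s := L) (n := k) (by omega)
  have e : Fin k ≃ L' := (Fintype.equivFinOfCardEq (by
    rw [Fintype.card_coe, hL'c])).symm
  have h2 : ∀ i : Fin k, ∃ z' : Fin n, z' ∉ L' ∧ ∃ E : {E : Finset (Fin n) // E.card ≤ m + 1},
      ∀ x, x ∉ E.1 → ∀ y, y ∉ E.1 → T X (e i) x y = T X z' x y := by
    intro i
    obtain ⟨z', _, hz'L, E, hE1, _, _, hE2⟩ := hL (e i) (hL'L (e i).2)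
    exact ⟨z', fun h3 => hz'L (hL'L h3), ⟨E, hE1⟩, hE2⟩
  choose f hf E hE using h2
  refine ⟨fun i => (e i : Fin n), f, E, ?_, ?_, ?_⟩
  · intro i j hij
    exact e.injective (Subtype.ext hij)
  · intro i j hij
    exact hf i (hij ▸ (e j).2)
  · exact hE

open Classical in
theorem near_count (n k e : ℕ) (ℓ f : Fin k → Fin n) (E : Fin k → Finset (Fin n))
    (hℓ : Function.Injective ℓ) (hf : ∀ i j, f i ≠ ℓ j) (hE : ∀ i, (E i).card ≤ e) :
    ((univ : Finset (SimpleGraph (Fin n))).filter fun X =>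
      ∀ i x, x ∉ E i → ∀ y, y ∉ E i → T X (ℓ i) x y = T X (f i) x y).card *
        2 ^ (k * (n - k - e - 1)) ≤ 2 ^ (n.choose 2) := by
  by_cases hz : n - k - e - 1 = 0
  · rw [hz, mul_zero, pow_zero, mul_one, ← card_graphs, ← card_univ]
    exact card_le_card (filter_subset _ _)
  set Lf : Finset (Fin n) := univ.image ℓ with hLf
  have hLc : Lf.card = k := by
    rw [hLf, card_image_of_injective _ hℓ, card_univ, Fintype.card_fin]
  have hfL : ∀ i, f i ∉ Lf := by
    intro i h1
    rw [hLf, mem_image] at h1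
    obtain ⟨j, _, hj⟩ := h1
    exact hf i j hj.symm
  have hℓL : ∀ i, ℓ i ∈ Lf := fun i => mem_image_of_mem _ (mem_univ _)
  set D : Fin k → Finset (Fin n) := fun i => univ \ (Lf ∪ E i) with hD
  have hDc : ∀ i, n - k - e ≤ (D i).card := by
    intro i
    have h1 := card_union_le Lf (E i)
    have h2 := hE i
    rw [hD]
    simp only
    rw [card_sdiff_of_subset (subset_univ _), card_univ, Fintype.card_fin]
    omega
  have hb : ∀ i, ∃ b, b ∈ D i := fun i => card_pos.1 (by have := hDc i; omega)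
  choose b hb using hb
  have hDm : ∀ i x, x ∈ D i → x ∉ Lf ∧ x ∉ E i := by
    intro i x hx
    rw [hD] at hx
    simp only [mem_sdiff, mem_union, not_or] at hx
    exact hx.2
  set Y : Fin k → Finset (Fin n) := fun i => (D i).erase (b i) with hY
  have hYc : ∀ i, n - k - e - 1 ≤ (Y i).card := by
    intro i
    rw [hY]
    simp only
    rw [card_erase_of_mem (hb i)]
    have := hDc i
    omega
  have hYm : ∀ i x, x ∈ Y i → x ≠ b i ∧ x ∉ Lf ∧ x ∉ E i := by
    intro i x hx
    rw [hY] at hx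
    simp only [mem_erase] at hx
    exact ⟨hx.1, hDm i x hx.2⟩
  set P : Finset (Sym2 (Fin n)) :=
    ((univ : Finset (Fin k)).sigma Y).image (fun p => s(ℓ p.1, p.2)) with hP
  have hPc : k * (n - k - e - 1) ≤ P.card := by
    rw [hP, card_image_of_injOn]
    · rw [card_sigma]
      calc k * (n - k - e - 1) = ∑ _i : Fin k, (n - k - e - 1) := by
            rw [sum_const, card_univ, Fintype.card_fin, smul_eq_mul]
        _ ≤ _ := sum_le_sum (fun i _ => hYc i)
    · rintro ⟨i, x⟩ h1 ⟨j, y⟩ h2 h3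
      rw [mem_coe, mem_sigma] at h1 h2
      simp only [Sym2.eq_iff] at h3
      rcases h3 with h3 | h3
      · have hij : i = j := hℓ h3.1
        subst hij
        rw [h3.2]
      · exfalso
        have h4 : ℓ i = y := h3.1
        exact (hYm j y h2.2).2.1 (h4 ▸ hℓL i)
  have hmem : ∀ a c, s(a, c) ∈ P → ∃ i, (a = ℓ i ∧ c ∈ Y i) ∨ (c = ℓ i ∧ a ∈ Y i) := by
    intro a c hac
    rw [hP, mem_image] at hac
    obtain ⟨⟨i, x⟩, hix, h3⟩ := hac
    rw [mem_sigma] at hix
    simp only [Sym2.eq_iff] at h3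
    rcases h3 with ⟨rfl, rfl⟩ | ⟨rfl, rfl⟩
    · exact ⟨i, Or.inl ⟨rfl, hix.2⟩⟩
    · exact ⟨i, Or.inr ⟨rfl, hix.2⟩⟩
  have hmain : ((univ : Finset (SimpleGraph (Fin n))).filter fun X =>
      ∀ i x, x ∉ E i → ∀ y, y ∉ E i → T X (ℓ i) x y = T X (f i) x y).card * 2 ^ P.card ≤
        2 ^ (n.choose 2) := by
    apply card_le_of_private
    · intro p hp
      induction p using Sym2.ind with
      | _ a c =>
        intro hd
        rw [Sym2.mk_isDiag_iff] at hd
        subst hd
        obtain ⟨i, h1 | h1⟩ := hmem a a hp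
        · exact (hYm i a h1.2).2.1 (h1.1 ▸ hℓL i)
        · exact (hYm i a h1.2).2.1 (h1.1 ▸ hℓL i)
    · intro X hX X' hX' hag
      rw [mem_filter] at hX hX'
      have hag' : ∀ a c, s(a, c) ∉ P → g X a c = g X' a c := by
        intro a c hac
        rw [g_eq_iff]; exact hag a c hac
      have hout : ∀ a c, a ∉ Lf → c ∉ Lf → g X a c = g X' a c := by
        intro a c ha hc
        apply hag'
        intro h1
        obtain ⟨i, h2 | h2⟩ := hmem a c h1
        · exact ha (h2.1 ▸ hℓL i)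
        · exact hc (h2.1 ▸ hℓL i)
      have hbase : ∀ i, g X (ℓ i) (b i) = g X' (ℓ i) (b i) := by
        intro i
        apply hag'
        intro h1
        obtain ⟨j, h2 | h2⟩ := hmem _ _ h1
        · have hij : i = j := hℓ h2.1
          subst hij
          exact (hYm i _ h2.2).1 rfl
        · exact (hYm j _ h2.2).2.1 (hℓL i)
      have hdet : ∀ i x, x ∈ Y i → g X (ℓ i) x = g X' (ℓ i) x := by
        intro i x hx
        obtain ⟨_, hxL, hxE⟩ := hYm i x hx
        obtain ⟨hbL, hbE⟩ := hDm i _ (hb i)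
        have h1 := hX.2 i x hxE (b i) hbE
        have h2 := hX'.2 i x hxE (b i) hbE
        unfold T at h1 h2
        rw [hbase i, hout x (b i) hxL hbL, hout (f i) x (hfL i) hxL,
          hout (f i) (b i) (hfL i) hbL] at h1
        linear_combination h1 - h2
      apply ext_g
      intro a c
      by_cases hac : s(a, c) ∈ P
      · obtain ⟨i, h1 | h1⟩ := hmem a c hac
        · rw [h1.1]; exact hdet i c h1.2
        · rw [h1.1, g_symm X, g_symm X']; exact hdet i a h1.2
      · exact hag' a c hac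
  refine le_trans ?_ hmain
  apply Nat.mul_le_mul_left
  exact Nat.pow_le_pow_right (by norm_num) hPc

/-- number of small subsets -/
noncomputable def small (n e : ℕ) : ℕ := Fintype.card {E : Finset (Fin n) // E.card ≤ e}

open Classical in
theorem twins_count (n k e : ℕ) :
    ((univ : Finset (SimpleGraph (Fin n))).filter fun X => Twins X k e).card *
      2 ^ (k * (n - k - e - 1)) ≤ (n ^ 2 * small n e) ^ k * 2 ^ (n.choose 2) := by
  let I := (Fin k → Fin n) × (Fin k → Fin n) × (Fin k → {E : Finset (Fin n) // E.card ≤ e})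
  let S : I → Finset (SimpleGraph (Fin n)) := fun t =>
    if Function.Injective t.1 ∧ ∀ i j, t.2.1 i ≠ t.1 j then
      (univ : Finset (SimpleGraph (Fin n))).filter fun X =>
        ∀ i x, x ∉ (t.2.2 i).1 → ∀ y, y ∉ (t.2.2 i).1 → T X (t.1 i) x y = T X (t.2.1 i) x y
    else ∅
  have h1 : ((univ : Finset (SimpleGraph (Fin n))).filter fun X => Twins X k e) ⊆
      (univ : Finset I).biUnion S := by
    intro X hX
    rw [mem_filter] at hX
    obtain ⟨ℓ, f, E, hℓ, hf, hT⟩ := hX.2
    rw [mem_biUnion]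
    refine ⟨(ℓ, f, E), mem_univ _, ?_⟩
    simp only [S]
    rw [if_pos ⟨hℓ, hf⟩, mem_filter]
    exact ⟨mem_univ _, hT⟩
  have h2 : ∀ t : I, (S t).card * 2 ^ (k * (n - k - e - 1)) ≤ 2 ^ (n.choose 2) := by
    intro t
    simp only [S]
    split_ifs with h
    · exact near_count n k e t.1 t.2.1 (fun i => (t.2.2 i).1) h.1 h.2 (fun i => (t.2.2 i).2)
    · simp
  have h3 : Fintype.card I = (n ^ 2 * small n e) ^ k := by
    simp only [I, Fintype.card_prod, Fintype.card_fun, Fintype.card_fin]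
    change n ^ k * (n ^ k * small n e ^ k) = _
    rw [mul_pow, ← pow_mul, two_mul, pow_add]
    ring
  calc _ ≤ ((univ : Finset I).biUnion S).card * 2 ^ (k * (n - k - e - 1)) :=
        Nat.mul_le_mul_right _ (card_le_card h1)
    _ ≤ (∑ t : I, (S t).card) * 2 ^ (k * (n - k - e - 1)) :=
        Nat.mul_le_mul_right _ card_biUnion_le
    _ = ∑ t : I, (S t).card * 2 ^ (k * (n - k - e - 1)) := by rw [sum_mul]
    _ ≤ ∑ _t : I, 2 ^ (n.choose 2) := sum_le_sum (fun t _ => h2 t)
    _ = (n ^ 2 * small n e) ^ k * 2 ^ (n.choose 2) := by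
        rw [sum_const, card_univ, h3, smul_eq_mul]

theorem small_le (n e : ℕ) : (small n e : ℝ) ≤ 9 ^ e * (10 / 9) ^ n := by
  classical
  have h0 : small n e = ((univ : Finset (Finset (Fin n))).filter fun E => E.card ≤ e).card := by
    unfold small
    rw [Fintype.card_subtype]
  have h1 : ∑ E ∈ (univ : Finset (Fin n)).powerset, (1 / 9 : ℝ) ^ E.card *
      1 ^ ((univ : Finset (Fin n)).card - E.card) = (1 / 9 + 1) ^ (univ : Finset (Fin n)).card :=
    sum_pow_mul_eq_add_pow (1 / 9 : ℝ) 1 (univ : Finset (Fin n))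
  rw [card_univ, Fintype.card_fin, powerset_univ] at h1
  have h2 : (small n e : ℝ) = ∑ E ∈ (univ : Finset (Finset (Fin n))) with E.card ≤ e, (1 : ℝ) := by
    rw [h0, sum_const, nsmul_eq_mul, mul_one]
  rw [h2]
  calc ∑ E ∈ (univ : Finset (Finset (Fin n))) with E.card ≤ e, (1 : ℝ)
      ≤ ∑ E ∈ (univ : Finset (Finset (Fin n))) with E.card ≤ e, 9 ^ e * (1 / 9 : ℝ) ^ E.card := by
        apply sum_le_sum
        intro E hE
        rw [mem_filter] at hE
        rw [one_div, inv_pow, ← div_eq_mul_inv, le_div_iff₀ (by positivity), one_mul]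
        exact pow_le_pow_right₀ (by norm_num) hE.2
    _ ≤ ∑ E : Finset (Fin n), 9 ^ e * (1 / 9 : ℝ) ^ E.card := by
        apply sum_le_sum_of_subset_of_nonneg (filter_subset _ _)
        intro E _ _
        positivity
    _ = 9 ^ e * (10 / 9) ^ n := by
        rw [← mul_sum]
        congr 1
        have : (10 / 9 : ℝ) = 1 / 9 + 1 := by norm_num
        rw [this, ← h1]
        apply sum_congr rfl
        intro E _
        rw [one_pow, mul_one]

end RCD
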