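import Mathlib

/-! Numerical estimates -/

open Finset

namespace RCD

/-- powers of two with real exponent -/
noncomputable def F (x : ℝ) : ℝ := (2 : ℝ) ^ x

theorem F_pos (x : ℝ) : 0 < F x := Real.rpow_pos_of_pos (by norm_num) x

theorem F_add (x y : ℝ) : F (x + y) = F x * F y := Real.rpow_add (by norm_num) x y

theorem F_mono {x y : ℝ} (h : x ≤ y) : F x ≤ F y :=
  Real.rpow_le_rpow_of_exponent_le (by norm_num) h

theorem F_nat (k : ℕ) : F (k : ℝ) = 2 ^ k := by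
  unfold F
  exact Real.rpow_natCast 2 k

theorem F_neg_nat (k : ℕ) : F (-(k : ℝ)) = (1 / 2) ^ k := by
  unfold F
  rw [Real.rpow_neg (by norm_num), Real.rpow_natCast, one_div, inv_pow]

theorem F_pow (x : ℝ) (k : ℕ) : F x ^ k = F (k * x) := by
  unfold F
  rw [mul_comm, Real.rpow_mul (by norm_num), Real.rpow_natCast]

theorem nat_le_F (n : ℕ) (hn : 4096 ≤ n) : (n : ℝ) ≤ F ((n : ℝ) / 320) := by
  induction n, hn using Nat.le_induction with
  | base =>
    have h1 : F (12 : ℝ) ≤ F (((4096 : ℕ) : ℝ) / 320) := F_mono (by norm_num)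
    have h2 : F (12 : ℝ) = 2 ^ 12 := by
      have := F_nat 12
      exact_mod_cast this
    rw [h2] at h1
    refine le_trans ?_ h1
    norm_num
  | succ n hn ih =>
    have h1 : F (((n + 1 : ℕ) : ℝ) / 320) = F ((n : ℝ) / 320) * F (1 / 320) := by
      rw [← F_add]
      congr 1
      push_cast
      ring
    have h2 : (1 : ℝ) + 1 / 4096 ≤ F (1 / 320) := by
      unfold F
      rw [Real.rpow_def_of_pos (by norm_num)]
      have h3 := Real.add_one_le_exp (Real.log 2 * (1 / 320))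
      have h4 := Real.log_two_gt_d9
      have h5 : (1 : ℝ) / 4096 ≤ Real.log 2 * (1 / 320) := by
        nlinarith
      linarith
    have hn' : (4096 : ℝ) ≤ n := by exact_mod_cast hn
    rw [h1]
    have h6 : (n : ℝ) * (1 + 1 / 4096) ≤ F ((n : ℝ) / 320) * F (1 / 320) :=
      mul_le_mul ih h2 (by norm_num) (F_pos _).le
    push_cast
    nlinarith

theorem pow_nat_le_F (n j : ℕ) (hn : 4096 ≤ n) : (n : ℝ) ^ j ≤ F (j * ((n : ℝ) / 320)) := by
  rw [← F_pow]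
  exact pow_le_pow_left₀ (by positivity) (nat_le_F n hn) j

/-- one term of the union bound -/
theorem term_le (n a a0 : ℕ) (hn : 4096 ≤ n) (ha0 : 30 * a0 ≤ n + 40) (ha : a0 ≤ a)
    (ha1 : 1 ≤ a0) (h : 3 * a ≤ n + 1) :
    (n : ℝ) ^ (12 * a) * (1 / 2) ^ (a * (n - 3 - 2 * a)) ≤ F (-(89 * a0 * n / 100 : ℝ)) := by
  have hn' : (4096 : ℝ) ≤ n := by exact_mod_cast hn
  have ha' : (a0 : ℝ) ≤ a := by exact_mod_cast ha
  have ha1' : (1 : ℝ) ≤ a0 := by exact_mod_cast ha1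
  have ha0' : 30 * (a0 : ℝ) ≤ n + 40 := by exact_mod_cast ha0
  have h' : 3 * (a : ℝ) ≤ n + 1 := by exact_mod_cast h
  have h1 : ((n - 3 - 2 * a : ℕ) : ℝ) = (n : ℝ) - 3 - 2 * a := by
    rw [Nat.cast_sub (by omega), Nat.cast_sub (by omega)]
    push_cast
    ring
  have h2 : (n : ℝ) ^ (12 * a) * (1 / 2) ^ (a * (n - 3 - 2 * a)) ≤
      F (12 * a * (n / 320) - a * (n - 3 - 2 * a)) := by
    rw [← F_neg_nat, sub_eq_add_neg, F_add]
    have h3 := pow_nat_le_F n (12 * a) hn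
    push_cast at h3 ⊢
    rw [h1]
    exact mul_le_mul_of_nonneg_right h3 (F_pos _).le
  refine h2.trans (F_mono ?_)
  -- monotonicity in `a`
  have h3 : 0 ≤ ((a : ℝ) - a0) * (n - 3 - 12 * (n / 320) - 2 * (a + a0)) := by
    apply mul_nonneg
    · linarith
    · linarith
  have h4 : (89 : ℝ) * n / 100 ≤ n - 3 - 12 * (n / 320) - 2 * a0 := by linarith
  have h5 : (a0 : ℝ) * (89 * n / 100) ≤ a0 * (n - 3 - 12 * (n / 320) - 2 * a0) :=
    mul_le_mul_of_nonneg_left h4 (by linarith)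
  nlinarith

theorem sum_terms_le (n a0 : ℕ) (hn : 4096 ≤ n) (ha0 : 30 * a0 ≤ n + 40) (ha1 : 1 ≤ a0) (C : ℝ)
    (hC : 0 ≤ C) :
    ∑ a ∈ (range n).filter (fun a => a0 ≤ a ∧ 3 * a ≤ n + 1),
      (n : ℝ) ^ (12 * a) * (1 / 2) ^ (a * (n - 3 - 2 * a)) * C ≤
    n * F (-(89 * a0 * n / 100 : ℝ)) * C := by
  have h1 : ∀ a ∈ (range n).filter (fun a => a0 ≤ a ∧ 3 * a ≤ n + 1),
      (n : ℝ) ^ (12 * a) * (1 / 2) ^ (a * (n - 3 - 2 * a)) * C ≤
        F (-(89 * a0 * n / 100 : ℝ)) * C := by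
    intro a ha
    rw [mem_filter] at ha
    exact mul_le_mul_of_nonneg_right (term_le n a a0 hn ha0 ha.2.1 ha1 ha.2.2) hC
  calc _ ≤ ∑ _a ∈ (range n).filter (fun a => a0 ≤ a ∧ 3 * a ≤ n + 1),
        F (-(89 * a0 * n / 100 : ℝ)) * C := sum_le_sum h1
    _ = ((range n).filter (fun a => a0 ≤ a ∧ 3 * a ≤ n + 1)).card *
        (F (-(89 * a0 * n / 100 : ℝ)) * C) := by
        rw [sum_const, nsmul_eq_mul]
    _ ≤ n * (F (-(89 * a0 * n / 100 : ℝ)) * C) := by
        apply mul_le_mul_of_nonneg_right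
        · have h2 := card_filter_le (range n) (fun a => a0 ≤ a ∧ 3 * a ≤ n + 1)
          rw [card_range] at h2
          exact_mod_cast h2
        · have := F_pos (-(89 * a0 * n / 100 : ℝ))
          positivity
    _ = _ := by ring

theorem F_one : F 1 = 2 := by
  have := F_nat 1
  norm_num at this
  exact this

theorem ten (n : ℕ) : (10 / 9 : ℝ) ^ n ≤ F ((n : ℝ) / 6) := by
  have h1 : (10 / 9 : ℝ) ≤ F (1 / 6) := by
    have h2 : (10 / 9 : ℝ) ^ 6 ≤ F (1 / 6) ^ 6 := by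
      rw [F_pow]
      have : F (((6 : ℕ) : ℝ) * (1 / 6)) = 2 := by
        have h3 : ((6 : ℕ) : ℝ) * (1 / 6) = 1 := by norm_num
        rw [h3, F_one]
      rw [this]
      norm_num
    exact (pow_le_pow_iff_left₀ (by norm_num) (F_pos _).le (by norm_num)).1 h2
  calc (10 / 9 : ℝ) ^ n ≤ F (1 / 6) ^ n := pow_le_pow_left₀ (by norm_num) h1 n
    _ = F ((n : ℝ) / 6) := by rw [F_pow]; congr 1; ring

theorem nine (e : ℕ) : (9 : ℝ) ^ e ≤ F (16 / 5 * e) := by
  have h1 : (9 : ℝ) ≤ F (16 / 5) := by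
    have h2 : (9 : ℝ) ^ 5 ≤ F (16 / 5) ^ 5 := by
      rw [F_pow]
      have : F (((5 : ℕ) : ℝ) * (16 / 5)) = 2 ^ 16 := by
        have h3 : ((5 : ℕ) : ℝ) * (16 / 5) = ((16 : ℕ) : ℝ) := by norm_num
        rw [h3, F_nat]
      rw [this]
      norm_num
    exact (pow_le_pow_iff_left₀ (by norm_num) (F_pos _).le (by norm_num)).1 h2
  calc (9 : ℝ) ^ e ≤ F (16 / 5) ^ e := pow_le_pow_left₀ (by norm_num) h1 e
    _ = F (16 / 5 * e) := by rw [F_pow]; congr 1; ring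

/-- the near-twin term -/
theorem twin_le (n r k e : ℕ) (S Q C : ℝ) (hn : 4096 ≤ n) (hr : 3 ≤ r) (hrn : r ≤ n)
    (hk : k = (r + 2) / 4) (he : e = r / 10 + 3) (hS : S ≤ 9 ^ e * (10 / 9) ^ n) (hS0 : 0 ≤ S)
    (hC : 0 ≤ C)
    (h : Q * 2 ^ (k * (n - k - e - 1)) ≤ (n ^ 2 * S) ^ k * C) :
    Q ≤ F (-(153 * r * n / 5000 : ℝ)) * C := by
  have hn' : (4096 : ℝ) ≤ n := by exact_mod_cast hn
  have hr' : (3 : ℝ) ≤ r := by exact_mod_cast hr
  have hrn' : (r : ℝ) ≤ n := by exact_mod_cast hrn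
  have hk1 : 4 * k ≤ r + 2 := by omega
  have hk2 : r ≤ 4 * k + 1 := by omega
  have hk1' : 4 * (k : ℝ) ≤ r + 2 := by exact_mod_cast hk1
  have hk2' : (r : ℝ) ≤ 4 * k + 1 := by exact_mod_cast hk2
  have he1 : 10 * e ≤ r + 30 := by omega
  have he1' : 10 * (e : ℝ) ≤ r + 30 := by exact_mod_cast he1
  have hsub : k + e + 1 ≤ n := by omega
  have h1 : ((n - k - e - 1 : ℕ) : ℝ) = (n : ℝ) - k - e - 1 := by
    rw [Nat.cast_sub (by omega), Nat.cast_sub (by omega), Nat.cast_sub (by omega)]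
    push_cast
    ring
  -- the base
  have h2 : (n : ℝ) ^ 2 * S ≤ F ((n : ℝ) / 160 + 16 / 5 * e + n / 6) := by
    have h3 := pow_nat_le_F n 2 hn
    have h6 : S ≤ F (16 / 5 * e) * F ((n : ℝ) / 6) :=
      hS.trans (mul_le_mul (nine e) (ten n) (by positivity) (F_pos _).le)
    rw [F_add, F_add, mul_assoc]
    have h7 : (n : ℝ) ^ 2 ≤ F ((n : ℝ) / 160) := by
      refine h3.trans (F_mono ?_)
      push_cast
      linarith
    exact mul_le_mul h7 h6 hS0 (F_pos _).le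
  have h3 : ((n : ℝ) ^ 2 * S) ^ k ≤ F (k * ((n : ℝ) / 160 + 16 / 5 * e + n / 6)) := by
    rw [← F_pow]
    exact pow_le_pow_left₀ (by positivity) h2 k
  have h4 : (2 : ℝ) ^ (k * (n - k - e - 1)) = F (k * ((n : ℝ) - k - e - 1)) := by
    rw [← F_nat]
    push_cast
    rw [h1]
  have h5 : Q * F (k * ((n : ℝ) - k - e - 1)) ≤
      F (k * ((n : ℝ) / 160 + 16 / 5 * e + n / 6)) * C := by
    rw [← h4]
    exact h.trans (mul_le_mul_of_nonneg_right h3 hC)
  have h6 : Q ≤ F (k * ((n : ℝ) / 160 + 16 / 5 * e + n / 6) - k * ((n : ℝ) - k - e - 1)) * C := by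
    have h7 := F_pos (k * ((n : ℝ) - k - e - 1))
    have h8 : F (k * ((n : ℝ) / 160 + 16 / 5 * e + n / 6)) =
        F (k * ((n : ℝ) / 160 + 16 / 5 * e + n / 6) - k * ((n : ℝ) - k - e - 1)) *
          F (k * ((n : ℝ) - k - e - 1)) := by
      rw [← F_add]
      congr 1
      ring
    rw [h8] at h5
    have h9 : Q * F (k * ((n : ℝ) - k - e - 1)) ≤
        (F (k * ((n : ℝ) / 160 + 16 / 5 * e + n / 6) - k * ((n : ℝ) - k - e - 1)) * C) *
          F (k * ((n : ℝ) - k - e - 1)) := by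
      calc _ ≤ _ := h5
        _ = _ := by ring
    exact le_of_mul_le_mul_right h9 h7
  refine h6.trans (mul_le_mul_of_nonneg_right (F_mono ?_) hC)
  have h10 : (n : ℝ) / 160 + 16 / 5 * e + n / 6 - (n - k - e - 1) ≤ -(153 * n / 1000) := by linarith
  have h11' : r ≤ 5 * k := by omega
  have h11 : (r : ℝ) ≤ 5 * k := by exact_mod_cast h11'
  have h12 : (k : ℝ) * ((n : ℝ) / 160 + 16 / 5 * e + n / 6) - k * ((n : ℝ) - k - e - 1) =
      k * ((n : ℝ) / 160 + 16 / 5 * e + n / 6 - (n - k - e - 1)) := by ring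
  rw [h12]
  have h13 : (k : ℝ) * ((n : ℝ) / 160 + 16 / 5 * e + n / 6 - (n - k - e - 1)) ≤ k * (-(153 * n / 1000)) :=
    mul_le_mul_of_nonneg_left h10 (by linarith)
  nlinarith

/-- final numerical estimate -/
theorem final_le (n r s a0 : ℕ) (hn : 4096 ≤ n) (hr : 3 ≤ r) (hrn : r ≤ n)
    (hs : s = r / 10 + 2) (ha0 : a0 = (r / 10 + 4) / 3) :
    (n : ℝ) ^ (2 * s) * (n * F (-(89 * a0 * n / 100 : ℝ)) + F (-(153 * r * n / 5000 : ℝ))) +
      n * F (-(89 * a0 * n / 100 : ℝ)) ≤ F (-(r * n / 40 : ℝ)) := by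
  have hn' : (4096 : ℝ) ≤ n := by exact_mod_cast hn
  have hr' : (3 : ℝ) ≤ r := by exact_mod_cast hr
  have hrn' : (r : ℝ) ≤ n := by exact_mod_cast hrn
  have hs1 : 10 * s ≤ r + 20 := by omega
  have hs1' : 10 * (s : ℝ) ≤ r + 20 := by exact_mod_cast hs1
  have ha1 : r + 11 ≤ 30 * a0 := by omega
  have ha1' : (r : ℝ) + 11 ≤ 30 * a0 := by exact_mod_cast ha1
  have hpow := pow_nat_le_F n (2 * s) hn
  have hn1 := nat_le_F n hn
  push_cast at hpow
  set A := F (-(89 * a0 * n / 100 : ℝ)) with hA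
  set D := F (-(153 * r * n / 5000 : ℝ)) with hD
  have hA0 : 0 < A := F_pos _
  have hD0 : 0 < D := F_pos _
  set G := F (-(r * n / 40 : ℝ)) with hG
  have hG0 : 0 < G := F_pos _
  have h8 : F (-3 : ℝ) = 1 / 8 := by
    have := F_neg_nat 3
    norm_num at this ⊢
    exact this
  have t1 : (n : ℝ) ^ (2 * s) * (n * A) ≤ G * (1 / 8) := by
    rw [← h8, ← F_add, hA]
    calc (n : ℝ) ^ (2 * s) * (n * F (-(89 * a0 * n / 100 : ℝ)))
        ≤ F (2 * s * (n / 320)) * (F ((n : ℝ) / 320) * F (-(89 * a0 * n / 100 : ℝ))) := by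
          apply mul_le_mul hpow _ (by positivity) (F_pos _).le
          exact mul_le_mul_of_nonneg_right hn1 (F_pos _).le
      _ = F (2 * s * (n / 320) + (n / 320 + -(89 * a0 * n / 100 : ℝ))) := by rw [F_add, F_add]
      _ ≤ _ := by
          apply F_mono
          nlinarith [mul_le_mul_of_nonneg_right ha1' (by positivity : (0:ℝ) ≤ n),
            mul_le_mul_of_nonneg_right hs1' (by positivity : (0:ℝ) ≤ n),
            mul_nonneg (by positivity : (0:ℝ) ≤ r) (by positivity : (0:ℝ) ≤ n)]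
  have t3 : (n : ℝ) ^ (2 * s) * D ≤ G * (1 / 8) := by
    rw [← h8, ← F_add, hD]
    calc (n : ℝ) ^ (2 * s) * F (-(153 * r * n / 5000 : ℝ))
        ≤ F (2 * s * (n / 320)) * F (-(153 * r * n / 5000 : ℝ)) :=
          mul_le_mul_of_nonneg_right hpow (F_pos _).le
      _ = F (2 * s * (n / 320) + -(153 * r * n / 5000 : ℝ)) := by rw [F_add]
      _ ≤ _ := by
          apply F_mono
          nlinarith [mul_le_mul_of_nonneg_right hs1' (by positivity : (0:ℝ) ≤ n),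
            mul_le_mul_of_nonneg_right hr' (by positivity : (0:ℝ) ≤ n)]
  have t4 : (n : ℝ) * A ≤ G * (1 / 8) := by
    rw [← h8, ← F_add, hA]
    calc (n : ℝ) * F (-(89 * a0 * n / 100 : ℝ))
        ≤ F ((n : ℝ) / 320) * F (-(89 * a0 * n / 100 : ℝ)) :=
          mul_le_mul_of_nonneg_right hn1 (F_pos _).le
      _ = F (n / 320 + -(89 * a0 * n / 100 : ℝ)) := by rw [F_add]
      _ ≤ _ := by
          apply F_mono
          nlinarith [mul_le_mul_of_nonneg_right ha1' (by positivity : (0:ℝ) ≤ n),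
            mul_nonneg (by positivity : (0:ℝ) ≤ r) (by positivity : (0:ℝ) ≤ n)]
  have hexp : (n : ℝ) ^ (2 * s) * (n * A + D) + n * A =
      (n : ℝ) ^ (2 * s) * (n * A) + (n : ℝ) ^ (2 * s) * D + n * A := by ring
  rw [hexp]
  linarith

end RCD
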