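import Pool.Agent.RCD.E1

/-! From labelled graphs to isomorphism types of switching classes -/

open Finset

namespace RCD

open SwR

open Classical in
/-- number of points moved by a permutation -/
noncomputable def mvc {n : ℕ} (σ : Equiv.Perm (Fin n)) : ℕ :=
  (univ.filter (fun x => σ x ≠ x)).card

open Classical in
theorem card_small_perms (n s : ℕ) (hn : 0 < n) :
    ((univ : Finset (Equiv.Perm (Fin n))).filter fun σ => mvc σ ≤ s).card ≤ n ^ (2 * s) := by
  refine le_trans ?_ (card_moved_le n s hn)
  apply card_le_card_of_injOn (fun σ : Equiv.Perm (Fin n) => (fun x => σ x : Fin n → Fin n))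
  · intro σ hσ
    rw [mem_coe, mem_filter] at hσ ⊢
    refine ⟨mem_univ _, ?_⟩
    have := hσ.2
    unfold mvc at this
    convert this
  · intro σ _ ρ _ h
    exact Equiv.ext (fun a => congrFun h a)

open Classical in
theorem sum_big_auts (n s : ℕ) :
    ∑ X : SimpleGraph (Fin n), ((auts X).filter (fun σ => s < mvc σ)).card ≤
      bsumGe n ((s + 2) / 3) := by
  have h1 : ∑ X : SimpleGraph (Fin n), ((auts X).filter (fun σ => s < mvc σ)).card =
      ∑ σ ∈ (univ : Finset (Equiv.Perm (Fin n))).filter (fun σ => s < mvc σ),
        ((univ : Finset (SimpleGraph (Fin n))).filter fun X => ∀ x y z,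
          T X x y z = T X (σ x) (σ y) (σ z)).card := by
    have : ∀ X : SimpleGraph (Fin n), (auts X).filter (fun σ => s < mvc σ) =
        ((univ : Finset (Equiv.Perm (Fin n))).filter (fun σ => s < mvc σ)).filter
          fun σ => ∀ x y z, T X x y z = T X (σ x) (σ y) (σ z) := by
      intro X
      ext σ
      unfold auts
      simp only [mem_filter, mem_univ, true_and]
      exact and_comm
    simp only [this]
    simp only [card_filter _ ((univ : Finset (Equiv.Perm (Fin n))).filter _), card_filter _
      (univ : Finset (SimpleGraph (Fin n)))]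
    exact sum_comm
  rw [h1]
  rcases Nat.eq_zero_or_pos n with h0 | hpos
  · subst h0
    have : (univ : Finset (Equiv.Perm (Fin 0))).filter (fun σ => s < mvc σ) = ∅ := by
      ext σ
      simp only [mem_filter, mem_univ, true_and, notMem_empty, iff_false, not_lt]
      unfold mvc
      have : (univ.filter (fun x : Fin 0 => σ x ≠ x)) = ∅ := by
        ext x
        exact x.elim0
      rw [this, card_empty]
      exact Nat.zero_le _
    rw [this, sum_empty]
    exact Nat.zero_le _
  have : Nonempty (Fin n) := ⟨⟨0, hpos⟩⟩
  have hx : ∀ σ : Equiv.Perm (Fin n), s < mvc σ → ∃ x, σ x ≠ x := by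
    intro σ hσ
    by_contra h
    push Not at h
    unfold mvc at hσ
    have h2 : (univ.filter (fun x => σ x ≠ x)) = ∅ := by
      rw [filter_eq_empty_iff]
      intro x _
      rw [not_not]
      exact h x
    rw [h2, card_empty] at hσ
    omega
  choose! x hx using hx
  let m : Equiv.Perm (Fin n) → Fin n × Fin n × (Fin n → Fin n) := fun σ =>
    (σ (x σ), σ (x σ), σ)
  have hm : ∀ σ ∈ (univ : Finset (Equiv.Perm (Fin n))).filter (fun σ => s < mvc σ),
      m σ ∈ (badPairs n).filter (fun t => (s + 2) / 3 ≤ aa t) := by
    intro σ hσ
    rw [mem_filter] at hσ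
    have h := hx σ hσ.2
    rw [mem_filter]
    constructor
    · unfold badPairs
      rw [mem_filter]
      exact ⟨mem_univ _, fun a b _ _ hab => σ.injective hab, x σ, ⟨h.symm, h.symm⟩, h⟩
    · have h2 : (univ.filter (fun y => σ y ≠ y)).erase (σ (x σ)) ⊆ mv (m σ) := by
        intro y hy
        rw [mem_erase, mem_filter] at hy
        unfold mv
        rw [mem_filter]
        exact ⟨mem_univ _, ⟨hy.1, hy.1⟩, hy.2.2⟩
      have h3 := card_le_card h2
      have h4 := pred_card_le_card_erase (s := univ.filter (fun y => σ y ≠ y)) (a := σ (x σ))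
      have h5 : s < (univ.filter (fun y => σ y ≠ y)).card := by
        have := hσ.2
        unfold mvc at this
        exact this
      have h6 : aa (m σ) = ((mv (m σ)).card + 2) / 3 := rfl
      omega
  have hinj : ∀ σ ∈ (univ : Finset (Equiv.Perm (Fin n))).filter (fun σ => s < mvc σ),
      ∀ ρ ∈ (univ : Finset (Equiv.Perm (Fin n))).filter (fun σ => s < mvc σ),
        m σ = m ρ → σ = ρ := by
    intro σ _ ρ _ h
    have h3 : (σ : Fin n → Fin n) = ρ := congrArg (fun t => t.2.2) h
    exact Equiv.ext (fun a => congrFun h3 a)
  calc ∑ σ ∈ (univ : Finset (Equiv.Perm (Fin n))).filter (fun σ => s < mvc σ),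
        ((univ : Finset (SimpleGraph (Fin n))).filter fun X => ∀ x y z,
          T X x y z = T X (σ x) (σ y) (σ z)).card
      ≤ ∑ σ ∈ (univ : Finset (Equiv.Perm (Fin n))).filter (fun σ => s < mvc σ),
          fixCount n (m σ) := by
        apply sum_le_sum
        intro σ _
        apply card_le_card
        intro X hX
        rw [mem_filter] at hX ⊢
        exact ⟨mem_univ _, fun a b c _ _ _ => hX.2 a b c⟩
    _ = ∑ t ∈ ((univ : Finset (Equiv.Perm (Fin n))).filter (fun σ => s < mvc σ)).image m,
          fixCount n t := by
        rw [sum_image hinj]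
    _ ≤ bsumGe n ((s + 2) / 3) := by
        unfold bsumGe
        apply sum_le_sum_of_subset
        intro t ht
        obtain ⟨σ, hσ, rfl⟩ := mem_image.1 ht
        exact hm σ hσ

open Classical in
/-- **Unlabelled counting.** -/
theorem unl_bound (n s : ℕ) (hn : 0 < n) (P : SimpleGraph (Fin n) → Prop)
    (hP : ∀ X Y, SwEq X Y → P X → P Y) :
    (((univ : Finset (SimpleGraph (Fin n))).filter P).image (Quotient.mk (swSetoid n))).card *
      Fintype.card (SimpleGraph (Fin n)) ≤
    (n ^ (2 * s) * ((univ : Finset (SimpleGraph (Fin n))).filter P).card +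
      bsumGe n ((s + 2) / 3)) * Fintype.card (Cls n) := by
  set K := Fintype.card (Equiv.Perm (Fin n)) * kap n with hK
  set S := (univ : Finset (SimpleGraph (Fin n))).filter P with hS
  have h1 : (S.image (Quotient.mk (swSetoid n))).card * K ≤
      n ^ (2 * s) * S.card + bsumGe n ((s + 2) / 3) := by
    have h2 := sum_auts_invariant n P hP
    rw [← hK, ← hS] at h2
    calc _ = ∑ X ∈ S, (auts X).card := h2
      _ = ∑ X ∈ S, (((auts X).filter (fun σ => mvc σ ≤ s)).card +
          ((auts X).filter (fun σ => s < mvc σ)).card) := by
            apply sum_congr rfl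
            intro X _
            have h3 := card_filter_add_card_filter_not (s := auts X) (fun σ => mvc σ ≤ s)
            simp only [not_le] at h3
            exact h3.symm
      _ = ∑ X ∈ S, ((auts X).filter (fun σ => mvc σ ≤ s)).card +
          ∑ X ∈ S, ((auts X).filter (fun σ => s < mvc σ)).card := sum_add_distrib
      _ ≤ n ^ (2 * s) * S.card + bsumGe n ((s + 2) / 3) := by
            apply Nat.add_le_add
            · rw [mul_comm, ← smul_eq_mul, ← sum_const]
              apply sum_le_sum
              intro X _
              refine le_trans (card_le_card ?_) (card_small_perms n s hn)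
              intro σ hσ
              rw [mem_filter] at hσ ⊢
              exact ⟨mem_univ _, hσ.2⟩
            · exact (sum_le_sum_of_subset (filter_subset _ _)).trans (sum_big_auts n s)
  have h3 : Fintype.card (SimpleGraph (Fin n)) ≤ Fintype.card (Cls n) * K := by
    have h2 := sum_auts_invariant n (fun _ => True) (fun _ _ _ h => h)
    rw [← hK] at h2
    have h7 : ∀ inst : DecidablePred fun _ : SimpleGraph (Fin n) => True,
        (@Finset.filter _ (fun _ => True) inst univ) = univ := by
      intro inst
      ext X
      simp
    rw [h7] at h2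
    have h4 : (univ : Finset (SimpleGraph (Fin n))).image (Quotient.mk (swSetoid n)) = univ := by
      ext c
      simp only [mem_image, mem_univ, true_and, iff_true]
      exact Quotient.exists_rep c
    rw [h4, card_univ] at h2
    rw [h2]
    calc Fintype.card (SimpleGraph (Fin n)) = ∑ X : SimpleGraph (Fin n), 1 := by
          rw [sum_const, smul_eq_mul, mul_one, card_univ]
      _ ≤ _ := by
          apply sum_le_sum
          intro X _
          exact card_pos.2 ⟨1, one_mem_auts X⟩
  calc (S.image (Quotient.mk (swSetoid n))).card * Fintype.card (SimpleGraph (Fin n))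
      ≤ (S.image (Quotient.mk (swSetoid n))).card * (Fintype.card (Cls n) * K) :=
        Nat.mul_le_mul_left _ h3
    _ = (S.image (Quotient.mk (swSetoid n))).card * K * Fintype.card (Cls n) := by ring
    _ ≤ _ := Nat.mul_le_mul_right _ h1

end RCD
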