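import Pool.Agent.RCD.Det
import Pool.Agent.RCD.NT
import Pool.Agent.RCD.Unl
import Pool.Agent.RCD.Num

/-! All but a proportion `2 ^ (- r n / 40)` of the classes have fewer than `r / 2` moved
vertices, and are therefore determined by any `r` cards -/

open Finset

namespace RCD

open SwR

theorem swEq_card {V : Type*} {X Y : SimpleGraph V} {φ : V ≃ V}
    (hφ : ∀ x y z, T X x y z = T Y (φ x) (φ y) (φ z)) (a : V) :
    SwEq (card X a) (card Y (φ a)) := by
  rw [swEq_iff]
  have h : ∀ x, x ∈ ({a}ᶜ : Set V) ↔ φ x ∈ ({φ a}ᶜ : Set V) := by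
    intro x
    simp
  refine ⟨φ.subtypeEquiv h, fun x y z => ?_⟩
  rw [T_induce, T_induce]
  exact hφ x y z

theorem RCards.congr {V : Type*} {r : ℕ} {X Y : SimpleGraph V} (h : SwEq X Y)
    (hX : RCards r X) : RCards r Y := by
  obtain ⟨φ, hφ⟩ := (swEq_iff _ _).1 h
  intro Z v w hv hw hc
  refine SwEq.trans (SwEq.symm h) ?_
  refine hX Z (fun i => φ.symm (v i)) w (φ.symm.injective.comp hv) hw ?_
  intro i
  have h1 := swEq_card hφ (φ.symm (v i))
  rw [φ.apply_symm_apply] at h1
  exact h1.trans (hc i)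

theorem reconstructible_of_rcards {V : Type*} [Fintype V] {r : ℕ} (hr : r ≤ Fintype.card V)
    {X : SimpleGraph V} (h : RCards r X) : Reconstructible X := by
  rintro Y ⟨π, hπ⟩
  obtain ⟨e⟩ : Nonempty (Fin r ↪ V) := by
    rw [Function.Embedding.nonempty_iff_card_le]; simpa using hr
  refine h Y e (fun i => π.symm (e i)) e.injective (π.symm.injective.comp e.injective) ?_
  intro i
  have := (hπ (π.symm (e i))).symm
  rw [π.apply_symm_apply] at this
  exact this

/-- isomorphic two-graphs have corresponding moved vertices -/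
theorem moved_of_equiv {V : Type*} {X Y : SimpleGraph V} {φ : V ≃ V}
    (hφ : ∀ x y z, T X x y z = T Y (φ x) (φ y) (φ z)) {z : V} (hz : z ∈ moved X) :
    φ z ∈ moved Y := by
  obtain ⟨u, v, f, hf, x, hx, hfx, hz⟩ := hz
  have hne : ∀ a b, a ≠ φ b → φ.symm a ≠ b := by
    rintro a b h rfl
    exact h (φ.apply_symm_apply a).symm
  refine ⟨φ u, φ v, fun y => φ (f (φ.symm y)), ⟨?_, ?_⟩, φ x, ?_, ?_, ?_⟩
  · intro a b ha hb hab
    have h1 := hf.1 _ _ ⟨hne a u ha.1, hne a v ha.2⟩ ⟨hne b u hb.1, hne b v hb.2⟩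
      (φ.injective hab)
    exact φ.symm.injective h1
  · intro a b c ha hb hc
    have h1 := hf.2 _ _ _ ⟨hne a u ha.1, hne a v ha.2⟩ ⟨hne b u hb.1, hne b v hb.2⟩
      ⟨hne c u hc.1, hne c v hc.2⟩
    rw [hφ, hφ, φ.apply_symm_apply, φ.apply_symm_apply, φ.apply_symm_apply] at h1
    exact h1
  · exact ⟨fun h => hx.1 (φ.injective h), fun h => hx.2 (φ.injective h)⟩
  · simp only [φ.symm_apply_apply]
    exact fun h => hfx (φ.injective h)
  · simp only [φ.symm_apply_apply]
    rcases hz with rfl | rfl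
    · exact Or.inl rfl
    · exact Or.inr rfl

/-- Fewer than `r / 2` vertices are moved by isomorphisms between subclasses on at least `n - 2`
vertices, more precisely `2 |M| + 2 ≤ r`. -/
def Few {V : Type*} (r : ℕ) (X : SimpleGraph V) : Prop := 2 * (moved X).ncard + 2 ≤ r

theorem Few.congr {V : Type*} [Finite V] {r : ℕ} {X Y : SimpleGraph V} (h : SwEq X Y)
    (hX : Few r X) : Few r Y := by
  obtain ⟨φ, hφ⟩ := (swEq_iff _ _).1 (SwEq.symm h)
  unfold Few at *
  have h1 : (moved Y).ncard ≤ (moved X).ncard :=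
    Set.ncard_le_ncard_of_injOn φ (fun z hz => moved_of_equiv hφ hz) φ.injective.injOn
      (Set.toFinite _)
  omega

/-- **Theorem 1.** -/
theorem Few.rcards {V : Type*} [Fintype V] {r : ℕ} {X : SimpleGraph V}
    (hV : 5 ≤ Fintype.card V) (hr : 3 ≤ r) (h : Few r X) : RCards r X := by
  classical
  unfold Few at h
  rw [Set.ncard_eq_toFinset_card _ (Set.toFinite _)] at h
  exact rcards_of_moved hV hr _ (fun z hz => by simpa using hz) h

open Classical in
/-- labelled count -/
theorem not_few_card_le (n r : ℕ) :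
    ((univ : Finset (SimpleGraph (Fin n))).filter fun X => ¬ Few r X).card ≤
      bsumGe n ((r / 10 + 4) / 3) +
        ((univ : Finset (SimpleGraph (Fin n))).filter fun X =>
          Twins X ((r + 2) / 4) (r / 10 + 3)).card := by
  have h1 : ((univ : Finset (SimpleGraph (Fin n))).filter fun X => ¬ Few r X) ⊆
      (((badPairs n).filter (fun t => (r / 10 + 4) / 3 ≤ aa t)).biUnion fun t =>
        (univ : Finset (SimpleGraph (Fin n))).filter fun X => Pres X t.1 t.2.1 t.2.2) ∪
      ((univ : Finset (SimpleGraph (Fin n))).filter fun X =>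
          Twins X ((r + 2) / 4) (r / 10 + 3)) := by
    intro X hX
    rw [mem_filter] at hX
    rw [mem_union]
    by_cases hc : ∃ t ∈ badPairs n, Pres X t.1 t.2.1 t.2.2 ∧ r / 10 + 2 ≤ (mv t).card
    · left
      obtain ⟨t, ht, hp, hm⟩ := hc
      rw [mem_biUnion]
      refine ⟨t, ?_, ?_⟩
      · rw [mem_filter]
        refine ⟨ht, ?_⟩
        have : aa t = ((mv t).card + 2) / 3 := rfl
        omega
      · rw [mem_filter]
        exact ⟨mem_univ _, hp⟩
    · right
      push Not at hc
      rw [mem_filter]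
      refine ⟨mem_univ _, ?_⟩
      set B : Finset (Fin n) := (Set.toFinite (moved X)).toFinset with hB
      have hBm : ∀ z, z ∈ B ↔ z ∈ moved X := by
        intro z
        rw [hB, Set.Finite.mem_toFinset]
      have hBr : ¬ (2 * B.card + 2 ≤ r) := by
        have := hX.2
        unfold Few at this
        rw [Set.ncard_eq_toFinset_card _ (Set.toFinite _)] at this
        exact this
      exact twins_of_few (m := r / 10 + 2) hc B hBm (by omega)
  calc _ ≤ _ := card_le_card h1
    _ ≤ _ := card_union_le _ _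
    _ ≤ _ := by
      apply Nat.add_le_add_right
      unfold bsumGe fixCount
      exact card_biUnion_le

/-- A switching class all of whose members have few moved vertices. -/
def ClassFew {n : ℕ} (r : ℕ) (c : Cls n) : Prop :=
  ∀ X : SimpleGraph (Fin n), Quotient.mk (swSetoid n) X = c → Few r X

open Classical in
theorem labelled_bound (n r : ℕ) (hn : 4096 ≤ n) (hr : 3 ≤ r) (hrn : r ≤ n) :
    (((univ : Finset (SimpleGraph (Fin n))).filter fun X => ¬ Few r X).card : ℝ) ≤
      (n * F (-(89 * ((r / 10 + 4) / 3 : ℕ) * n / 100 : ℝ)) + F (-(153 * r * n / 5000 : ℝ))) *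
        2 ^ (n.choose 2) := by
  have h1 := not_few_card_le n r
  have h2 : (((univ : Finset (SimpleGraph (Fin n))).filter fun X => ¬ Few r X).card : ℝ) ≤
      (bsumGe n ((r / 10 + 4) / 3) : ℝ) +
        (((univ : Finset (SimpleGraph (Fin n))).filter fun X =>
          Twins X ((r + 2) / 4) (r / 10 + 3)).card : ℝ) := by
    exact_mod_cast h1
  have h3 := bsumGe_le n ((r / 10 + 4) / 3) (by omega) (by omega)
  have h4 := sum_terms_le n ((r / 10 + 4) / 3) hn (by omega) (by omega) (2 ^ (n.choose 2))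
    (by positivity)
  have h5 := twins_count n ((r + 2) / 4) (r / 10 + 3)
  have h6 : ((((univ : Finset (SimpleGraph (Fin n))).filter fun X =>
      Twins X ((r + 2) / 4) (r / 10 + 3)).card *
      2 ^ (((r + 2) / 4) * (n - ((r + 2) / 4) - (r / 10 + 3) - 1)) : ℕ) : ℝ) ≤
      (((n ^ 2 * small n (r / 10 + 3)) ^ ((r + 2) / 4) * 2 ^ (n.choose 2) : ℕ) : ℝ) := by
    exact_mod_cast h5
  push_cast at h6
  have h7 := twin_le n r ((r + 2) / 4) (r / 10 + 3) (small n (r / 10 + 3)) _
    (2 ^ (n.choose 2)) hn hr hrn rfl rfl (small_le n (r / 10 + 3)) (Nat.cast_nonneg _)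
    (by positivity) h6
  rw [add_mul]
  exact h2.trans (add_le_add (h3.trans h4) h7)

open Classical in
/-- **Theorem 2.** -/
theorem unlabelled_bound (n r : ℕ) (hn : 4096 ≤ n) (hr : 3 ≤ r) (hrn : r ≤ n) :
    (((univ : Finset (Cls n)).filter fun c => ¬ ClassFew r c).card : ℝ) ≤
      (2 : ℝ) ^ (-((r : ℝ) * n / 40)) * Fintype.card (Cls n) := by
  set P : SimpleGraph (Fin n) → Prop := fun X => ¬ Few r X with hP
  set S := (univ : Finset (SimpleGraph (Fin n))).filter P with hS
  have h0 : ((univ : Finset (Cls n)).filter fun c => ¬ ClassFew r c).card ≤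
      (S.image (Quotient.mk (swSetoid n))).card := by
    apply card_le_card
    intro c hc
    rw [mem_filter] at hc
    have h3 := hc.2
    unfold ClassFew at h3
    push Not at h3
    obtain ⟨X, hX, hX2⟩ := h3
    rw [mem_image]
    refine ⟨X, ?_, hX⟩
    rw [hS, mem_filter]
    exact ⟨mem_univ _, hX2⟩
  have h1 : (S.image (Quotient.mk (swSetoid n))).card * Fintype.card (SimpleGraph (Fin n)) ≤
      (n ^ (2 * (r / 10 + 2)) * S.card + bsumGe n ((r / 10 + 2 + 2) / 3)) *
        Fintype.card (Cls n) := by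
    have h := unl_bound n (r / 10 + 2) (by omega) P
      (fun X Y hXY hX hY => hX (Few.congr (SwEq.symm hXY) hY))
    rw [hS]
    convert h
  rw [card_graphs] at h1
  have h2 : ((S.image (Quotient.mk (swSetoid n))).card : ℝ) * 2 ^ (n.choose 2) ≤
      ((n : ℝ) ^ (2 * (r / 10 + 2)) * S.card + bsumGe n ((r / 10 + 2 + 2) / 3)) *
        Fintype.card (Cls n) := by exact_mod_cast h1
  have h3 := labelled_bound n r hn hr hrn
  have h4 := bsumGe_le n ((r / 10 + 4) / 3) (by omega) (by omega)
  have h5 := sum_terms_le n ((r / 10 + 4) / 3) hn (by omega) (by omega) (2 ^ (n.choose 2))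
    (by positivity)
  have h6 := final_le n r (r / 10 + 2) ((r / 10 + 4) / 3) hn hr hrn rfl rfl
  have h7 : ((S.image (Quotient.mk (swSetoid n))).card : ℝ) * 2 ^ (n.choose 2) ≤
      ((2 : ℝ) ^ (-((r : ℝ) * n / 40)) * Fintype.card (Cls n)) * 2 ^ (n.choose 2) := by
    refine h2.trans ?_
    have hc : (0 : ℝ) ≤ Fintype.card (Cls n) := Nat.cast_nonneg _
    set C : ℝ := 2 ^ (n.choose 2) with hC
    have hC0 : 0 < C := by positivity
    have h8 : (n : ℝ) ^ (2 * (r / 10 + 2)) * S.card + bsumGe n ((r / 10 + 2 + 2) / 3) ≤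
        F (-(r * n / 40 : ℝ)) * C := by
      calc (n : ℝ) ^ (2 * (r / 10 + 2)) * S.card + bsumGe n ((r / 10 + 2 + 2) / 3)
          ≤ (n : ℝ) ^ (2 * (r / 10 + 2)) *
            ((n * F (-(89 * ((r / 10 + 4) / 3 : ℕ) * n / 100 : ℝ)) + F (-(153 * r * n / 5000 : ℝ))) * C) +
            n * F (-(89 * ((r / 10 + 4) / 3 : ℕ) * n / 100 : ℝ)) * C := by
            apply add_le_add
            · exact mul_le_mul_of_nonneg_left h3 (by positivity)
            · exact h4.trans h5
        _ = ((n : ℝ) ^ (2 * (r / 10 + 2)) *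
            (n * F (-(89 * ((r / 10 + 4) / 3 : ℕ) * n / 100 : ℝ)) + F (-(153 * r * n / 5000 : ℝ))) +
            n * F (-(89 * ((r / 10 + 4) / 3 : ℕ) * n / 100 : ℝ))) * C := by
            ring
        _ ≤ F (-(r * n / 40 : ℝ)) * C := mul_le_mul_of_nonneg_right h6 hC0.le
    have h9 : F (-(r * n / 40 : ℝ)) = (2 : ℝ) ^ (-((r : ℝ) * n / 40)) := rfl
    rw [← h9]
    calc _ ≤ (F (-(r * n / 40 : ℝ)) * C) * Fintype.card (Cls n) :=
          mul_le_mul_of_nonneg_right h8 hc
      _ = _ := by ring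
  have h8 := le_of_mul_le_mul_right h7 (by positivity)
  refine le_trans ?_ h8
  exact_mod_cast h0

end RCD
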